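import Pool.Agent.Helper65.Rogers.Family

set_option autoImplicit false

open Nat.Partrec

namespace Pool.Agent.Helper65.Rogers

section PR3

variable {α : Type*} [Primcodable α]

theorem primrec_cOf {f : α → ℕ} (hf : Primrec f) : Primrec fun a => cOf (f a) := pr_unpair1 hf

theorem primrec_kOf {f : α → ℕ} (hf : Primrec f) : Primrec fun a => kOf (f a) :=
  pr_unpair1 (pr_unpair2 hf)

theorem primrec_jOf {f : α → ℕ} (hf : Primrec f) : Primrec fun a => jOf (f a) :=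
  pr_unpair1 (pr_unpair2 (pr_unpair2 hf))

theorem primrec_tagOf {f : α → ℕ} (hf : Primrec f) : Primrec fun a => tagOf (f a) :=
  pr_unpair2 (pr_unpair2 (pr_unpair2 hf))

theorem primrec_Bx {s x : α → ℕ} (hs : Primrec s) (hx : Primrec x) :
    PrimrecPred fun a => Bx (s a) (x a) :=
  primrec_wn (primrec_cOf hx) hs (pr_pair (primrec_kOf hx) hx)

theorem primrec_Ex {s x : α → ℕ} (hs : Primrec s) (hx : Primrec x) :
    PrimrecPred fun a => Ex (s a) (x a) := by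
  unfold Ex
  refine pp_exists_lt (R := fun q : α × ℕ => wn (cOf (x q.1)) q.2 (Nat.pair (kOf (x q.1)) (x q.1))
    ∧ ¬ Xs q.2 (jOf (x q.1))) hs ?_
  have hx1 : Primrec fun q : α × ℕ => x q.1 := hx.comp Primrec.fst
  exact (primrec_wn (primrec_cOf hx1) Primrec.snd (pr_pair (primrec_kOf hx1) hx1)).and
    (primrec_Xs Primrec.snd (primrec_jOf hx1)).not

theorem primrec_Ps {s j x : α → ℕ} (hs : Primrec s) (hj : Primrec j) (hx : Primrec x) :
    PrimrecPred fun a => Ps (s a) (j a) (x a) := by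
  unfold Ps
  have ht := primrec_tagOf hx
  have he := pp_eq (primrec_jOf hx) hj
  have hB := primrec_Bx hs hx
  refine ((pp_eq ht (Primrec.const 0)).and (he.or hB)).or
    (((pp_eq ht (Primrec.const 1)).and hB).or
    (((pp_eq ht (Primrec.const 2)).and (he.or (primrec_Ex hs hx))).or
    ((pp_le (Primrec.const 3) ht).and ((he.and (primrec_Xs hs hj)).or hB))))

theorem primrec_Qs {s j x : α → ℕ} (hs : Primrec s) (hj : Primrec j) (hx : Primrec x) :
    PrimrecPred fun a => Qs (s a) (j a) (x a) := by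
  unfold Qs
  have ht := primrec_tagOf hx
  have he := pp_eq (primrec_jOf hx) hj
  have hB := primrec_Bx hs hx
  refine ((pp_eq ht (Primrec.const 0)).and (he.or hB)).or
    (((pp_eq ht (Primrec.const 1)).and (he.or hB)).or
    (((pp_eq ht (Primrec.const 2)).and (primrec_Ex hs hx)).or
    ((pp_le (Primrec.const 3) ht).and hB)))

end PR3

/-- positive part of the graph of `C` -/
def ACs (s j x : ℕ) : Prop :=
  (tagOf x = 0 ∧ (jOf x = j ∨ Bx s x)) ∨ (tagOf x = 1 ∧ ((jOf x = j ∧ Xs s j) ∨ Bx s x)) ∨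
  (tagOf x = 2 ∧ (jOf x = j ∨ Ex s x)) ∨ (3 ≤ tagOf x ∧ Bx s x)

/-- negative part of the graph of `C` -/
def BCs (s j x : ℕ) : Prop :=
  tagOf x = 2 ∧ jOf x = j ∧ Xs s (jOf x) ∧
    ∀ s' < s, wn (cOf x) s' (Nat.pair (kOf x) x) → Xs s' (jOf x)

theorem primrec_ACs {α : Type*} [Primcodable α] {s j x : α → ℕ} (hs : Primrec s)
    (hj : Primrec j) (hx : Primrec x) : PrimrecPred fun a => ACs (s a) (j a) (x a) := by
  unfold ACs
  have ht := primrec_tagOf hx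
  have he := pp_eq (primrec_jOf hx) hj
  have hB := primrec_Bx hs hx
  refine ((pp_eq ht (Primrec.const 0)).and (he.or hB)).or
    (((pp_eq ht (Primrec.const 1)).and ((he.and (primrec_Xs hs hj)).or hB)).or
    (((pp_eq ht (Primrec.const 2)).and (he.or (primrec_Ex hs hx))).or
    ((pp_le (Primrec.const 3) ht).and hB)))

theorem primrec_BCs {α : Type*} [Primcodable α] {s j x : α → ℕ} (hs : Primrec s)
    (hj : Primrec j) (hx : Primrec x) : PrimrecPred fun a => BCs (s a) (j a) (x a) := by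
  unfold BCs
  have ht := primrec_tagOf hx
  have he := pp_eq (primrec_jOf hx) hj
  refine (pp_eq ht (Primrec.const 2)).and (he.and ((primrec_Xs hs (primrec_jOf hx)).and ?_))
  refine pp_forall_lt (R := fun q : α × ℕ => wn (cOf (x q.1)) q.2
    (Nat.pair (kOf (x q.1)) (x q.1)) → Xs q.2 (jOf (x q.1))) hs ?_
  have hx1 : Primrec fun q : α × ℕ => x q.1 := hx.comp Primrec.fst
  exact pp_imp (primrec_wn (primrec_cOf hx1) Primrec.snd (pr_pair (primrec_kOf hx1) hx1))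
    (primrec_Xs Primrec.snd (primrec_jOf hx1))

open Classical in
/-- the set `C_j`, equal to `P_j` or `Q_j` -/
noncomputable def Cset (j : ℕ) : Set ℕ := if X j then Q j else P j

theorem mem_Cset (j x : ℕ) : x ∈ Cset j ↔ (∃ s, ACs s j x) ∧ ¬ ∃ s, BCs s j x := by
  classical
  have hBex : (∃ s, Bx s x) ↔ ∃ s, Bx s x := Iff.rfl
  by_cases hX : X j
  · have hC : Cset j = Q j := if_pos hX
    rw [hC]
    constructor
    · rintro ⟨s, h⟩
      obtain ⟨s1, hs1⟩ := hX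
      rcases h with ⟨h0, h⟩ | ⟨h0, h⟩ | ⟨h0, h⟩ | ⟨h0, h⟩
      · refine ⟨⟨s, Or.inl ⟨h0, h⟩⟩, ?_⟩
        rintro ⟨s', h', _⟩
        omega
      · refine ⟨?_, ?_⟩
        · rcases h with h | h
          · exact ⟨s1, Or.inr (Or.inl ⟨h0, Or.inl ⟨h, hs1⟩⟩)⟩
          · exact ⟨s, Or.inr (Or.inl ⟨h0, Or.inr h⟩)⟩
        · rintro ⟨s', h', _⟩
          omega
      · refine ⟨⟨s, Or.inr (Or.inr (Or.inl ⟨h0, Or.inr h⟩))⟩, ?_⟩
        rintro ⟨s', _, _, h3, h4⟩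
        obtain ⟨s2, _, h5, h6⟩ := h
        by_cases h7 : s2 < s'
        · exact h6 (h4 s2 h7 h5)
        · exact h6 (Xs_mono (by omega) h3)
      · refine ⟨⟨s, Or.inr (Or.inr (Or.inr ⟨h0, h⟩))⟩, ?_⟩
        rintro ⟨s', h', _⟩
        omega
    · rintro ⟨⟨s, h⟩, hB⟩
      rcases h with ⟨h0, h⟩ | ⟨h0, h⟩ | ⟨h0, h⟩ | ⟨h0, h⟩
      · exact ⟨s, Or.inl ⟨h0, h⟩⟩
      · exact ⟨s, Or.inr (Or.inl ⟨h0, h.imp And.left id⟩)⟩
      · rcases h with h | h
        · obtain ⟨s1, hs1⟩ := hX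
          by_contra hcon
          refine hB ⟨s1, h0, h, h ▸ hs1, fun s' _ hw => ?_⟩
          by_contra hx
          exact hcon ⟨s' + 1, Or.inr (Or.inr (Or.inl ⟨h0, ⟨s', Nat.lt_succ_self s', hw, hx⟩⟩))⟩
        · exact ⟨s, Or.inr (Or.inr (Or.inl ⟨h0, h⟩))⟩
      · exact ⟨s, Or.inr (Or.inr (Or.inr ⟨h0, h⟩))⟩
  · have hC : Cset j = P j := if_neg hX
    rw [hC]
    constructor
    · rintro ⟨s, h⟩
      refine ⟨⟨s, ?_⟩, ?_⟩
      · rcases h with ⟨h0, h⟩ | ⟨h0, h⟩ | ⟨h0, h⟩ | ⟨h0, h⟩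
        · exact Or.inl ⟨h0, h⟩
        · exact Or.inr (Or.inl ⟨h0, Or.inr h⟩)
        · exact Or.inr (Or.inr (Or.inl ⟨h0, h⟩))
        · refine Or.inr (Or.inr (Or.inr ⟨h0, ?_⟩))
          exact h.resolve_left fun h' => hX ⟨s, h'.2⟩
      · rintro ⟨s', _, h2, h3, _⟩
        rw [h2] at h3
        exact hX ⟨s', h3⟩
    · rintro ⟨⟨s, h⟩, _⟩
      refine ⟨s, ?_⟩
      rcases h with ⟨h0, h⟩ | ⟨h0, h⟩ | ⟨h0, h⟩ | ⟨h0, h⟩
      · exact Or.inl ⟨h0, h⟩
      · refine Or.inr (Or.inl ⟨h0, ?_⟩)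
        exact h.resolve_left fun h' => hX ⟨s, h'.2⟩
      · exact Or.inr (Or.inr (Or.inl ⟨h0, h⟩))
      · exact Or.inr (Or.inr (Or.inr ⟨h0, Or.inr h⟩))

/-- the second numbering of the family -/
noncomputable def betaN (i : ℕ) : Set ℕ := if i % 2 = 0 then alphaN (i / 2) else Cset (i / 2)

theorem betaN_even (j : ℕ) : betaN (2 * j) = alphaN j := by
  unfold betaN
  rw [if_pos (by omega)]
  congr 1
  omega

theorem betaN_odd (j : ℕ) : betaN (2 * j + 1) = Cset j := by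
  unfold betaN
  rw [if_neg (by omega)]
  congr 1
  omega

theorem range_betaN : Set.range betaN = Set.range alphaN := by
  classical
  apply Set.Subset.antisymm
  · rintro _ ⟨i, rfl⟩
    unfold betaN
    split_ifs
    · exact ⟨_, rfl⟩
    · unfold Cset
      split_ifs
      · exact ⟨2 * (i / 2) + 1, alphaN_odd _⟩
      · exact ⟨2 * (i / 2), alphaN_even _⟩
  · rintro _ ⟨i, rfl⟩
    exact ⟨2 * i, betaN_even i⟩

theorem ersh_betaN : ErshovSigma 2 {z | z.unpair.2 ∈ betaN z.unpair.1} := by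
  classical
  have hz : Primrec fun q : ℕ × ℕ => q.1 := Primrec.fst
  have hs : Primrec fun q : ℕ × ℕ => q.2 := Primrec.snd
  have hi := pr_unpair1 hz
  have hx := pr_unpair2 hz
  have hdiv : Primrec fun q : ℕ × ℕ => q.1.unpair.1 / 2 := Primrec.nat_div.comp hi (Primrec.const 2)
  have hdiv2 : Primrec fun q : ℕ × ℕ => q.1.unpair.1 / 2 / 2 :=
    Primrec.nat_div.comp hdiv (Primrec.const 2)
  have hmod : Primrec fun q : ℕ × ℕ => q.1.unpair.1 % 2 := Primrec.nat_mod.comp hi (Primrec.const 2)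
  have hmod2 : Primrec fun q : ℕ × ℕ => q.1.unpair.1 / 2 % 2 :=
    Primrec.nat_mod.comp hdiv (Primrec.const 2)
  let RA : ℕ × ℕ → Prop := fun q =>
    (q.1.unpair.1 % 2 = 0 ∧ (q.1.unpair.1 / 2 % 2 = 0 ∧ Ps q.2 (q.1.unpair.1 / 2 / 2) q.1.unpair.2)) ∨
    (q.1.unpair.1 % 2 = 0 ∧ (¬ q.1.unpair.1 / 2 % 2 = 0 ∧
      Qs q.2 (q.1.unpair.1 / 2 / 2) q.1.unpair.2)) ∨
    (¬ q.1.unpair.1 % 2 = 0 ∧ ACs q.2 (q.1.unpair.1 / 2) q.1.unpair.2)
  let RB : ℕ × ℕ → Prop := fun q =>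
    ¬ q.1.unpair.1 % 2 = 0 ∧ BCs q.2 (q.1.unpair.1 / 2) q.1.unpair.2
  have hRA : PrimrecPred RA :=
    ((pp_eq hmod (Primrec.const 0)).and ((pp_eq hmod2 (Primrec.const 0)).and
      (primrec_Ps hs hdiv2 hx))).or
    (((pp_eq hmod (Primrec.const 0)).and ((pp_eq hmod2 (Primrec.const 0)).not.and
      (primrec_Qs hs hdiv2 hx))).or
    ((pp_eq hmod (Primrec.const 0)).not.and (primrec_ACs hs hdiv hx)))
  have hRB : PrimrecPred RB :=
    (pp_eq hmod (Primrec.const 0)).not.and (primrec_BCs hs hdiv hx)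
  have hA : REPred fun z => ∃ s, RA (z, s) := re_of_exists_primrec hRA fun _ => Iff.rfl
  have hB : REPred fun z => ∃ s, RB (z, s) := re_of_exists_primrec hRB fun _ => Iff.rfl
  have heq : {z : ℕ | z.unpair.2 ∈ betaN z.unpair.1} =
      {z | (∃ s, RA (z, s)) ∧ ¬ ∃ s, RB (z, s)} := by
    ext z
    simp only [Set.mem_ofPred_eq, RA, RB]
    unfold betaN
    by_cases h0 : z.unpair.1 % 2 = 0
    · rw [if_pos h0]
      unfold alphaN
      by_cases h1 : z.unpair.1 / 2 % 2 = 0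
      · rw [if_pos h1]
        constructor
        · rintro ⟨s, hs⟩
          exact ⟨⟨s, Or.inl ⟨h0, h1, hs⟩⟩, fun ⟨_, h, _⟩ => h h0⟩
        · rintro ⟨⟨s, ⟨_, _, hs⟩ | ⟨_, h, _⟩ | ⟨h, _⟩⟩, _⟩
          · exact ⟨s, hs⟩
          · exact absurd h1 h
          · exact absurd h0 h
      · rw [if_neg h1]
        constructor
        · rintro ⟨s, hs⟩
          exact ⟨⟨s, Or.inr (Or.inl ⟨h0, h1, hs⟩)⟩, fun ⟨_, h, _⟩ => h h0⟩
        · rintro ⟨⟨s, ⟨_, h, _⟩ | ⟨_, _, hs⟩ | ⟨h, _⟩⟩, _⟩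
          · exact absurd h h1
          · exact ⟨s, hs⟩
          · exact absurd h0 h
    · rw [if_neg h0, mem_Cset]
      constructor
      · rintro ⟨⟨s, hs⟩, h⟩
        exact ⟨⟨s, Or.inr (Or.inr ⟨h0, hs⟩)⟩, fun ⟨s, _, h'⟩ => h ⟨s, h'⟩⟩
      · rintro ⟨⟨s, ⟨h, _⟩ | ⟨h, _⟩ | ⟨_, hs⟩⟩, h'⟩
        · exact absurd h h0
        · exact absurd h h0
        · exact ⟨⟨s, hs⟩, fun ⟨s, h''⟩ => h' ⟨s, h0, h''⟩⟩
  rw [heq]
  exact ersh_of_diff hA hB

theorem ersh_alphaN : ErshovSigma 2 {z | z.unpair.2 ∈ alphaN z.unpair.1} := by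
  have h1 := ersh_comp ersh_betaN (f := fun i => 2 * i) Primrec.nat_double.to_comp
  have heq : {z : ℕ | z.unpair.2 ∈ alphaN z.unpair.1} =
      {z : ℕ | z.unpair.2 ∈ betaN (2 * z.unpair.1)} := by
    ext z
    simp only [Set.mem_ofPred_eq, betaN_even]
  rw [heq]
  exact h1

end Pool.Agent.Helper65.Rogers
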