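import Mathlib

set_option autoImplicit false

namespace Pool.Agent.Helper65.Rogers

/-- The level `Σ_n^{-1}` of the Ershov (difference) hierarchy: `X` is `n`-c.e. -/
def ErshovSigma (n : ℕ) (X : Set ℕ) : Prop :=
  ∃ g : ℕ → ℕ → Bool, Computable₂ g ∧ (∀ x, g x 0 = false) ∧
    (∀ x, {s | g x (s + 1) ≠ g x s}.encard ≤ n) ∧
    ∀ x, ∃ s₀, ∀ s ≥ s₀, (g x s = true ↔ x ∈ X)

/-- `Σ_n^{-1}`-computable numberings of the family `𝒜`. -/
structure CompNumbering (n : ℕ) (𝒜 : Set (Set ℕ)) where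
  /-- the numbering -/
  toFun : ℕ → Set ℕ
  range_eq : Set.range toFun = 𝒜
  comp : ErshovSigma n {z | z.unpair.2 ∈ toFun z.unpair.1}

/-- Reducibility of numberings: `α ≤ β` iff `α = β ∘ f` for some computable `f`. -/
instance instPreorderCompNumbering (n : ℕ) (𝒜 : Set (Set ℕ)) : Preorder (CompNumbering n 𝒜) where
  le α β := ∃ f : ℕ → ℕ, Computable f ∧ α.toFun = β.toFun ∘ f
  le_refl α := ⟨id, Computable.id, rfl⟩
  le_trans α β γ := by
    rintro ⟨f, hf, h1⟩ ⟨g, hg, h2⟩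
    exact ⟨g ∘ f, hg.comp hf, by rw [h1, h2]; rfl⟩

/-- The Rogers semilattice of the family `𝒜`: the `Σ_n^{-1}`-computable numberings of `𝒜` modulo
`α ≤ β ∧ β ≤ α`, with the induced order. -/
abbrev RogersSemilattice (n : ℕ) (𝒜 : Set (Set ℕ)) : Type :=
  Antisymmetrization (CompNumbering n 𝒜) (· ≤ ·)

end Pool.Agent.Helper65.Rogers
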