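import Pool.Agent.Helper65.Rogers.RE
import Pool.Agent.Helper65.Rogers.Defs

set_option autoImplicit false

open Nat.Partrec

namespace Pool.Agent.Helper65.Rogers

/-- bounded disjunction -/
def orUpTo (f : ℕ → ℕ → Bool) (z s : ℕ) : Bool :=
  Nat.rec false (fun n ih => ih || f z n) s

theorem orUpTo_succ (f : ℕ → ℕ → Bool) (z s : ℕ) :
    orUpTo f z (s + 1) = (orUpTo f z s || f z s) := rfl

theorem orUpTo_zero (f : ℕ → ℕ → Bool) (z : ℕ) : orUpTo f z 0 = false := rfl

theorem orUpTo_mono {f : ℕ → ℕ → Bool} {z s s' : ℕ} (h : s ≤ s') (hs : orUpTo f z s = true) :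
    orUpTo f z s' = true := by
  induction s', h using Nat.le_induction with
  | base => exact hs
  | succ n _ ih => rw [orUpTo_succ, ih, Bool.true_or]

theorem orUpTo_iff {f : ℕ → ℕ → Bool} {z s : ℕ} :
    orUpTo f z s = true ↔ ∃ n < s, f z n = true := by
  induction s with
  | zero => simp [orUpTo_zero]
  | succ s ih =>
    rw [orUpTo_succ, Bool.or_eq_true, ih]
    constructor
    · rintro (⟨n, hn, h⟩ | h)
      · exact ⟨n, by omega, h⟩
      · exact ⟨s, by omega, h⟩
    · rintro ⟨n, hn, h⟩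
      rcases Nat.lt_succ_iff_lt_or_eq.1 hn with h1 | h1
      · exact Or.inl ⟨n, h1, h⟩
      · exact Or.inr (h1 ▸ h)

theorem computable_orUpTo {f : ℕ → ℕ → Bool} (hf : Computable₂ f) : Computable₂ (orUpTo f) := by
  have h1 : Computable fun q : ℕ × ℕ =>
      (Nat.rec false (fun n ih => ih || f q.1 n) q.2 : Bool) := by
    have h2 : Computable₂ fun (q : ℕ × ℕ) (p : ℕ × Bool) => p.2 || f q.1 p.1 :=
      Primrec.or.to_comp.comp (Computable.snd.comp Computable.snd)
        (hf.comp (Computable.fst.comp Computable.fst) (Computable.fst.comp Computable.snd))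
    exact Computable.nat_rec (α := ℕ × ℕ) (σ := Bool) Computable.snd (Computable.const false) h2
  exact h1

theorem change_subsingleton (f : ℕ → ℕ → Bool) (z : ℕ) :
    {s | orUpTo f z (s + 1) ≠ orUpTo f z s}.Subsingleton := by
  have key : ∀ s s', s < s' → orUpTo f z (s + 1) ≠ orUpTo f z s →
      orUpTo f z (s' + 1) ≠ orUpTo f z s' → False := by
    intro s s' hlt h h'
    have h1 : orUpTo f z (s + 1) = true := by
      by_contra h2
      rw [Bool.not_eq_true] at h2
      rw [h2] at h
      have h3 : orUpTo f z s = true := by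
        cases h4 : orUpTo f z s
        · exact absurd h4.symm h
        · rfl
      have h5 := orUpTo_mono (Nat.le_succ s) h3
      rw [Nat.succ_eq_add_one, h2] at h5
      exact Bool.false_ne_true h5
    have h3 := orUpTo_mono (show s + 1 ≤ s' by omega) h1
    have h4 := orUpTo_mono (show s + 1 ≤ s' + 1 by omega) h1
    exact h' (h4.trans h3.symm)
  intro s hs s' hs'
  rcases lt_trichotomy s s' with h | h | h
  · exact (key s s' h hs hs').elim
  · exact h
  · exact (key s' s h hs' hs).elim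

theorem ersh_of_diff {A B : ℕ → Prop} (hA : REPred A) (hB : REPred B) :
    ErshovSigma 2 {z | A z ∧ ¬ B z} := by
  obtain ⟨f, hf, h1⟩ := re_iff.1 hA
  obtain ⟨g, hg, h2⟩ := re_iff.1 hB
  refine ⟨fun z s => orUpTo f z s && !orUpTo g z s, ?_, fun x => ?_, fun x => ?_, fun x => ?_⟩
  · exact Primrec.and.to_comp.comp (computable_orUpTo hf)
      (Primrec.not.to_comp.comp (computable_orUpTo hg))
  · simp [orUpTo_zero]
  · have hsub : {s | (orUpTo f x (s + 1) && !orUpTo g x (s + 1)) ≠
        (orUpTo f x s && !orUpTo g x s)} ⊆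
        {s | orUpTo f x (s + 1) ≠ orUpTo f x s} ∪ {s | orUpTo g x (s + 1) ≠ orUpTo g x s} := by
      intro s hs
      by_contra hcon
      simp only [Set.mem_union, Set.mem_ofPred_eq, not_or, not_not] at hcon
      exact hs (by rw [hcon.1, hcon.2])
    calc _ ≤ _ := Set.encard_le_encard hsub
      _ ≤ _ := Set.encard_union_le _ _
      _ ≤ 1 + 1 := add_le_add
          (Set.encard_le_one_iff_subsingleton.2 (change_subsingleton f x))
          (Set.encard_le_one_iff_subsingleton.2 (change_subsingleton g x))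
      _ = _ := by norm_num
  · have ha : ∃ s1, A x → orUpTo f x s1 = true := by
      by_cases h : A x
      · obtain ⟨n, hn⟩ := (h1 x).1 h
        exact ⟨n + 1, fun _ => orUpTo_iff.2 ⟨n, Nat.lt_succ_self n, hn⟩⟩
      · exact ⟨0, fun h' => absurd h' h⟩
    have hb : ∃ s1, B x → orUpTo g x s1 = true := by
      by_cases h : B x
      · obtain ⟨n, hn⟩ := (h2 x).1 h
        exact ⟨n + 1, fun _ => orUpTo_iff.2 ⟨n, Nat.lt_succ_self n, hn⟩⟩
      · exact ⟨0, fun h' => absurd h' h⟩
    obtain ⟨s1, hs1⟩ := ha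
    obtain ⟨s2, hs2⟩ := hb
    refine ⟨max s1 s2, fun s hs => ?_⟩
    rw [Bool.and_eq_true, Bool.not_eq_true']
    constructor
    · rintro ⟨h3, h4⟩
      obtain ⟨n, _, hn⟩ := orUpTo_iff.1 h3
      refine ⟨(h1 x).2 ⟨n, hn⟩, fun hBx => ?_⟩
      rw [orUpTo_mono ((le_max_right _ _).trans hs) (hs2 hBx)] at h4
      exact Bool.false_ne_true h4.symm
    · rintro ⟨h3, h4⟩
      refine ⟨orUpTo_mono ((le_max_left _ _).trans hs) (hs1 h3), ?_⟩
      rw [← Bool.not_eq_true]
      intro h5
      obtain ⟨n, _, hn⟩ := orUpTo_iff.1 h5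
      exact h4 ((h2 x).2 ⟨n, hn⟩)

theorem exists_change {g : ℕ → Bool} {a b : ℕ} (hab : a ≤ b) (h : g a ≠ g b) :
    ∃ i, a ≤ i ∧ i < b ∧ g (i + 1) ≠ g i := by
  by_contra hcon
  push Not at hcon
  apply h
  have key : ∀ n, a ≤ n → n ≤ b → g a = g n := by
    intro n hn
    induction n, hn using Nat.le_induction with
    | base => exact fun _ => rfl
    | succ n hn ih =>
      intro hle
      rw [ih (by omega)]
      exact (hcon n hn (by omega)).symm
  exact key b hab le_rfl

theorem diff_of_ersh {D : Set ℕ} (h : ErshovSigma 2 D) :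
    ∃ A B : ℕ → Prop, REPred A ∧ REPred B ∧ ∀ z, z ∈ D ↔ A z ∧ ¬ B z := by
  obtain ⟨g, hg, h0, hch, hlim⟩ := h
  refine ⟨fun z => ∃ s, g z s = true, fun z => ∃ q : ℕ, g z q.unpair.1 = true ∧
    q.unpair.1 < q.unpair.2 ∧ g z q.unpair.2 = false, ?_, ?_, ?_⟩
  · exact re_iff.2 ⟨g, hg, fun _ => Iff.rfl⟩
  · refine re_iff.2 ⟨fun z q => g z q.unpair.1 && (decide (q.unpair.1 < q.unpair.2) &&
      !g z q.unpair.2), ?_, fun z => ?_⟩
    · have hu : Computable fun q : ℕ × ℕ => q.2.unpair := Computable.unpair.comp Computable.snd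
      have hu1 := Computable.fst.comp hu
      have hu2 := Computable.snd.comp hu
      exact Primrec.and.to_comp.comp (hg.comp Computable.fst hu1)
        (Primrec.and.to_comp.comp ((PrimrecRel.decide Primrec.nat_lt).to_comp.comp hu1 hu2)
          (Primrec.not.to_comp.comp (hg.comp Computable.fst hu2)))
    · constructor
      · rintro ⟨q, h1, h2, h3⟩
        exact ⟨q, by simp [h1, h2, h3]⟩
      · rintro ⟨q, hq⟩
        simp only [Bool.and_eq_true, decide_eq_true_eq, Bool.not_eq_true'] at hq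
        exact ⟨q, hq⟩
  · intro z
    obtain ⟨s₀, hs₀⟩ := hlim z
    constructor
    · intro hz
      refine ⟨⟨s₀, (hs₀ s₀ le_rfl).2 hz⟩, ?_⟩
      rintro ⟨q, h1, h2, h3⟩
      have h4 : g z (max s₀ q.unpair.2) = true := (hs₀ _ (le_max_left _ _)).2 hz
      obtain ⟨i1, _, hi1, hc1⟩ := exists_change (g := g z) (Nat.zero_le q.unpair.1)
        (by rw [h0, h1]; simp)
      obtain ⟨i2, hi2, hi2', hc2⟩ := exists_change (g := g z) h2.le (by rw [h1, h3]; simp)
      obtain ⟨i3, hi3, _, hc3⟩ := exists_change (g := g z) (le_max_right s₀ q.unpair.2)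
        (by rw [h3, h4]; simp)
      have hsub : ({i1, i2, i3} : Set ℕ) ⊆ {s | g z (s + 1) ≠ g z s} := by
        rintro x (rfl | rfl | rfl)
        · exact hc1
        · exact hc2
        · exact hc3
      have h5 := (Set.encard_le_encard hsub).trans (hch z)
      have h6 : ({i1, i2, i3} : Set ℕ).encard = 3 := by
        rw [Set.encard_insert_of_notMem, Set.encard_pair]
        · norm_num
        · omega
        · simp only [Set.mem_insert_iff, Set.mem_singleton_iff, not_or]
          omega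
      rw [h6] at h5
      exact absurd h5 (by norm_num)
    · rintro ⟨⟨s, hs⟩, hB⟩
      by_contra hz
      apply hB
      have h1 : g z (max s₀ (s + 1)) = false := by
        rw [← Bool.not_eq_true]
        intro h2
        exact hz ((hs₀ _ (le_max_left _ _)).1 h2)
      refine ⟨Nat.pair s (max s₀ (s + 1)), ?_⟩
      simp only [Nat.unpair_pair]
      exact ⟨hs, lt_of_lt_of_le (Nat.lt_succ_self s) (le_max_right _ _), h1⟩

theorem ersh_comp {n : ℕ} {γ : ℕ → Set ℕ} (h : ErshovSigma n {z | z.unpair.2 ∈ γ z.unpair.1})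
    {f : ℕ → ℕ} (hf : Computable f) : ErshovSigma n {z | z.unpair.2 ∈ γ (f z.unpair.1)} := by
  obtain ⟨g, hg, h0, hch, hlim⟩ := h
  refine ⟨fun z s => g (Nat.pair (f z.unpair.1) z.unpair.2) s, ?_, fun x => h0 _,
    fun x => hch _, fun x => ?_⟩
  · have hu : Computable fun q : ℕ × ℕ => q.1.unpair := Computable.unpair.comp Computable.fst
    exact hg.comp (Primrec₂.natPair.to_comp.comp (hf.comp (Computable.fst.comp hu))
      (Computable.snd.comp hu)) Computable.snd
  · obtain ⟨s₀, hs₀⟩ := hlim (Nat.pair (f x.unpair.1) x.unpair.2)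
    refine ⟨s₀, fun s hs => (hs₀ s hs).trans ?_⟩
    simp

end Pool.Agent.Helper65.Rogers
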