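import Pool.Agent.Helper65.Rogers.Xprop
import Pool.Agent.Helper65.Rogers.Ershov

set_option autoImplicit false

open Nat.Partrec

namespace Pool.Agent.Helper65.Rogers

def cOf (x : ℕ) : ℕ := x.unpair.1
def kOf (x : ℕ) : ℕ := x.unpair.2.unpair.1
def jOf (x : ℕ) : ℕ := x.unpair.2.unpair.2.unpair.1
def tagOf (x : ℕ) : ℕ := x.unpair.2.unpair.2.unpair.2
def mk (c k j τ : ℕ) : ℕ := Nat.pair c (Nat.pair k (Nat.pair j τ))

@[simp] theorem cOf_mk (c k j τ : ℕ) : cOf (mk c k j τ) = c := by simp [cOf, mk]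
@[simp] theorem kOf_mk (c k j τ : ℕ) : kOf (mk c k j τ) = k := by simp [kOf, mk]
@[simp] theorem jOf_mk (c k j τ : ℕ) : jOf (mk c k j τ) = j := by simp [jOf, mk]
@[simp] theorem tagOf_mk (c k j τ : ℕ) : tagOf (mk c k j τ) = τ := by simp [tagOf, mk]

def Bx (s x : ℕ) : Prop := wn (cOf x) s (Nat.pair (kOf x) x)
def Ex (s x : ℕ) : Prop := ∃ s' < s, wn (cOf x) s' (Nat.pair (kOf x) x) ∧ ¬ Xs s' (jOf x)

def Ps (s j x : ℕ) : Prop :=
  (tagOf x = 0 ∧ (jOf x = j ∨ Bx s x)) ∨ (tagOf x = 1 ∧ Bx s x) ∨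
  (tagOf x = 2 ∧ (jOf x = j ∨ Ex s x)) ∨ (3 ≤ tagOf x ∧ ((jOf x = j ∧ Xs s j) ∨ Bx s x))

def Qs (s j x : ℕ) : Prop :=
  (tagOf x = 0 ∧ (jOf x = j ∨ Bx s x)) ∨ (tagOf x = 1 ∧ (jOf x = j ∨ Bx s x)) ∨
  (tagOf x = 2 ∧ Ex s x) ∨ (3 ≤ tagOf x ∧ Bx s x)

def P (j : ℕ) : Set ℕ := {x | ∃ s, Ps s j x}
def Q (j : ℕ) : Set ℕ := {x | ∃ s, Qs s j x}

/-- `(k, x)` is in the c.e. set with code `c`, for `x = mk c k j τ` -/
def BB (c k j τ : ℕ) : Prop := ∃ s, wn c s (Nat.pair k (mk c k j τ))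
def EE (c k j : ℕ) : Prop := ∃ s, wn c s (Nat.pair k (mk c k j 2)) ∧ ¬ Xs s j

theorem EE_BB {c k j : ℕ} (h : EE c k j) : BB c k j 2 := by
  obtain ⟨s, h, _⟩ := h
  exact ⟨s, h⟩

theorem EE_of_BB {c k j : ℕ} (h : BB c k j 2) (hX : ¬ X j) : EE c k j := by
  obtain ⟨s, h⟩ := h
  exact ⟨s, h, fun h' => hX ⟨s, h'⟩⟩

theorem mem_P0 (c k j j' : ℕ) : mk c k j 0 ∈ P j' ↔ j = j' ∨ BB c k j 0 := by
  simp only [P, Set.mem_ofPred_eq, Ps, tagOf_mk, jOf_mk, Bx, cOf_mk, kOf_mk, BB]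
  constructor
  · rintro ⟨s, ⟨_, h⟩ | ⟨h, _⟩ | ⟨h, _⟩ | ⟨h, _⟩⟩
    · exact h.imp id fun h => ⟨s, h⟩
    all_goals omega
  · rintro (h | ⟨s, h⟩)
    · exact ⟨0, Or.inl ⟨trivial, Or.inl h⟩⟩
    · exact ⟨s, Or.inl ⟨trivial, Or.inr h⟩⟩

theorem mem_Q0 (c k j j' : ℕ) : mk c k j 0 ∈ Q j' ↔ j = j' ∨ BB c k j 0 := by
  simp only [Q, Set.mem_ofPred_eq, Qs, tagOf_mk, jOf_mk, Bx, cOf_mk, kOf_mk, BB]
  constructor
  · rintro ⟨s, ⟨_, h⟩ | ⟨h, _⟩ | ⟨h, _⟩ | ⟨h, _⟩⟩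
    · exact h.imp id fun h => ⟨s, h⟩
    all_goals omega
  · rintro (h | ⟨s, h⟩)
    · exact ⟨0, Or.inl ⟨trivial, Or.inl h⟩⟩
    · exact ⟨s, Or.inl ⟨trivial, Or.inr h⟩⟩

theorem mem_P1 (c k j j' : ℕ) : mk c k j 1 ∈ P j' ↔ BB c k j 1 := by
  simp only [P, Set.mem_ofPred_eq, Ps, tagOf_mk, jOf_mk, Bx, cOf_mk, kOf_mk, BB]
  constructor
  · rintro ⟨s, ⟨h, _⟩ | ⟨_, h⟩ | ⟨h, _⟩ | ⟨h, _⟩⟩
    · omega
    · exact ⟨s, h⟩
    all_goals omega
  · rintro ⟨s, h⟩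
    exact ⟨s, Or.inr (Or.inl ⟨trivial, h⟩)⟩

theorem mem_Q1 (c k j j' : ℕ) : mk c k j 1 ∈ Q j' ↔ j = j' ∨ BB c k j 1 := by
  simp only [Q, Set.mem_ofPred_eq, Qs, tagOf_mk, jOf_mk, Bx, cOf_mk, kOf_mk, BB]
  constructor
  · rintro ⟨s, ⟨h, _⟩ | ⟨_, h⟩ | ⟨h, _⟩ | ⟨h, _⟩⟩
    · omega
    · exact h.imp id fun h => ⟨s, h⟩
    all_goals omega
  · rintro (h | ⟨s, h⟩)
    · exact ⟨0, Or.inr (Or.inl ⟨trivial, Or.inl h⟩)⟩
    · exact ⟨s, Or.inr (Or.inl ⟨trivial, Or.inr h⟩)⟩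

theorem mem_P2 (c k j j' : ℕ) : mk c k j 2 ∈ P j' ↔ j = j' ∨ EE c k j := by
  simp only [P, Set.mem_ofPred_eq, Ps, tagOf_mk, jOf_mk, Ex, cOf_mk, kOf_mk, EE]
  constructor
  · rintro ⟨s, ⟨h, _⟩ | ⟨h, _⟩ | ⟨_, h⟩ | ⟨h, _⟩⟩
    · omega
    · omega
    · rcases h with h | ⟨s', _, h⟩
      · exact Or.inl h
      · exact Or.inr ⟨s', h⟩
    · omega
  · rintro (h | ⟨s, h⟩)
    · exact ⟨0, Or.inr (Or.inr (Or.inl ⟨trivial, Or.inl h⟩))⟩
    · exact ⟨s + 1, Or.inr (Or.inr (Or.inl ⟨trivial, Or.inr ⟨s, Nat.lt_succ_self s, h⟩⟩))⟩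

theorem mem_Q2 (c k j j' : ℕ) : mk c k j 2 ∈ Q j' ↔ EE c k j := by
  simp only [Q, Set.mem_ofPred_eq, Qs, tagOf_mk, jOf_mk, Ex, cOf_mk, kOf_mk, EE]
  constructor
  · rintro ⟨s, ⟨h, _⟩ | ⟨h, _⟩ | ⟨_, h⟩ | ⟨h, _⟩⟩
    · omega
    · omega
    · obtain ⟨s', _, h⟩ := h
      exact ⟨s', h⟩
    · omega
  · rintro ⟨s, h⟩
    exact ⟨s + 1, Or.inr (Or.inr (Or.inl ⟨trivial, ⟨s, Nat.lt_succ_self s, h⟩⟩))⟩

theorem mem_P3 (c k j j' : ℕ) : mk c k j 3 ∈ P j' ↔ (j = j' ∧ X j') ∨ BB c k j 3 := by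
  simp only [P, Set.mem_ofPred_eq, Ps, tagOf_mk, jOf_mk, Bx, cOf_mk, kOf_mk, BB]
  constructor
  · rintro ⟨s, ⟨h, _⟩ | ⟨h, _⟩ | ⟨h, _⟩ | ⟨_, h⟩⟩
    · omega
    · omega
    · omega
    · rcases h with ⟨h, h'⟩ | h
      · exact Or.inl ⟨h, s, h'⟩
      · exact Or.inr ⟨s, h⟩
  · rintro (⟨h, s, h'⟩ | ⟨s, h⟩)
    · exact ⟨s, Or.inr (Or.inr (Or.inr ⟨le_rfl, Or.inl ⟨h, h'⟩⟩))⟩
    · exact ⟨s, Or.inr (Or.inr (Or.inr ⟨le_rfl, Or.inr h⟩))⟩

theorem mem_Q3 (c k j j' : ℕ) : mk c k j 3 ∈ Q j' ↔ BB c k j 3 := by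
  simp only [Q, Set.mem_ofPred_eq, Qs, tagOf_mk, jOf_mk, Bx, cOf_mk, kOf_mk, BB]
  constructor
  · rintro ⟨s, ⟨h, _⟩ | ⟨h, _⟩ | ⟨h, _⟩ | ⟨_, h⟩⟩
    · omega
    · omega
    · omega
    · exact ⟨s, h⟩
  · rintro ⟨s, h⟩
    exact ⟨s, Or.inr (Or.inr (Or.inr ⟨le_rfl, h⟩))⟩

/-- a code of the empty c.e. set -/
theorem exists_empty_code : ∃ c, ∀ s z, ¬ wn c s z := by
  have h1 : REPred fun _ : ℕ => False :=
    re_of_exists_primrec (R := fun _ => ¬ (0 : ℕ) = 0)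
      (pp_eq (Primrec.const 0) (Primrec.const 0)).not fun _ => by simp
  obtain ⟨c, hc⟩ := exists_code_of_re h1
  exact ⟨c, fun s z h => (hc z).2 ⟨s, h⟩⟩

theorem P_ne_Q (j j' : ℕ) : P j ≠ Q j' := by
  obtain ⟨c, hc⟩ := exists_empty_code
  intro h
  have h1 : mk c 0 j' 1 ∈ Q j' := (mem_Q1 _ _ _ _).2 (Or.inl rfl)
  rw [← h, mem_P1] at h1
  obtain ⟨s, hs⟩ := h1
  exact hc _ _ hs

theorem type_unique {j j' : ℕ} (h : P j = P j' ∨ P j = Q j' ∨ Q j = P j' ∨ Q j = Q j') :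
    j = j' := by
  obtain ⟨c, hc⟩ := exists_empty_code
  have hB : ∀ τ, ¬ BB c 0 j τ := by
    rintro τ ⟨s, hs⟩
    exact hc _ _ hs
  have hp : mk c 0 j 0 ∈ P j := (mem_P0 _ _ _ _).2 (Or.inl rfl)
  have hq : mk c 0 j 0 ∈ Q j := (mem_Q0 _ _ _ _).2 (Or.inl rfl)
  rcases h with h | h | h | h
  · rw [h, mem_P0] at hp
    exact hp.resolve_right (hB 0)
  · rw [h, mem_Q0] at hp
    exact hp.resolve_right (hB 0)
  · rw [h, mem_P0] at hq
    exact hq.resolve_right (hB 0)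
  · rw [h, mem_Q0] at hq
    exact hq.resolve_right (hB 0)

/-- the numbering of the family by c.e. indices -/
noncomputable def alphaN (i : ℕ) : Set ℕ := if i % 2 = 0 then P (i / 2) else Q (i / 2)

theorem alphaN_even (j : ℕ) : alphaN (2 * j) = P j := by
  unfold alphaN
  rw [if_pos (by omega)]
  congr 1
  omega

theorem alphaN_odd (j : ℕ) : alphaN (2 * j + 1) = Q j := by
  unfold alphaN
  rw [if_neg (by omega)]
  congr 1
  omega

theorem exists_of_mem_range {S : Set ℕ} (h : S ∈ Set.range alphaN) :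
    ∃ j, S = P j ∨ S = Q j := by
  obtain ⟨i, rfl⟩ := h
  refine ⟨i / 2, ?_⟩
  unfold alphaN
  split_ifs
  · exact Or.inl rfl
  · exact Or.inr rfl

theorem numbering_structure {γ : ℕ → Set ℕ} (hr : Set.range γ = Set.range alphaN)
    {A B : ℕ → Prop} (hA : REPred A) (hB : REPred B)
    (hγ : ∀ k x, x ∈ γ k ↔ A (Nat.pair k x) ∧ ¬ B (Nat.pair k x)) :
    ∃ (t : ℕ → ℕ) (Y G N : ℕ → Prop), Computable t ∧ REPred Y ∧ REPred G ∧ REPred N ∧
      (∀ k, (Y k ∧ γ k = Q (t k)) ∨ (¬ Y k ∧ γ k = P (t k))) ∧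
      (∀ k, X (t k) → (¬ Y k ↔ N k)) ∧ (∀ k, ¬ X (t k) → (¬ Y k ↔ G k)) := by
  classical
  obtain ⟨c, hc⟩ := exists_code_of_re hB
  have hBB : ∀ k j τ, BB c k j τ ↔ B (Nat.pair k (mk c k j τ)) := fun k j τ => (hc _).symm
  have hex : ∀ k, ∃ j, γ k = P j ∨ γ k = Q j := by
    intro k
    exact exists_of_mem_range (hr ▸ ⟨k, rfl⟩)
  choose t ht using hex
  have hB0 : ∀ k j, ¬ BB c k j 0 := by
    intro k j h
    have h1 : mk c k j 0 ∈ γ k := by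
      rcases ht k with h2 | h2
      · rw [h2, mem_P0]
        exact Or.inr h
      · rw [h2, mem_Q0]
        exact Or.inr h
    exact ((hγ _ _).1 h1).2 ((hBB _ _ _).1 h)
  have hB1 : ∀ k j, ¬ BB c k j 1 := by
    intro k j h
    have h1 : mk c k j 1 ∈ γ k := by
      rcases ht k with h2 | h2
      · rw [h2, mem_P1]
        exact h
      · rw [h2, mem_Q1]
        exact Or.inr h
    exact ((hγ _ _).1 h1).2 ((hBB _ _ _).1 h)
  have hB3 : ∀ k j, ¬ BB c k j 3 := by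
    intro k j h
    have h1 : mk c k j 3 ∈ γ k := by
      rcases ht k with h2 | h2
      · rw [h2, mem_P3]
        exact Or.inr h
      · rw [h2, mem_Q3]
        exact h
    exact ((hγ _ _).1 h1).2 ((hBB _ _ _).1 h)
  have hE2 : ∀ k j, ¬ EE c k j := by
    intro k j h
    have h1 : mk c k j 2 ∈ γ k := by
      rcases ht k with h2 | h2
      · rw [h2, mem_P2]
        exact Or.inr h
      · rw [h2, mem_Q2]
        exact h
    exact ((hγ _ _).1 h1).2 ((hBB _ _ _).1 (EE_BB h))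
  have hT : ∀ k j, A (Nat.pair k (mk c k j 0)) ↔ t k = j := by
    intro k j
    have h1 : mk c k j 0 ∈ γ k ↔ j = t k := by
      rcases ht k with h2 | h2
      · rw [h2, mem_P0]
        exact or_iff_left (hB0 k j)
      · rw [h2, mem_Q0]
        exact or_iff_left (hB0 k j)
    rw [hγ] at h1
    constructor
    · intro h
      exact (h1.1 ⟨h, fun h' => hB0 k j ((hBB _ _ _).2 h')⟩).symm
    · intro h
      exact (h1.2 h.symm).1
  have hmk : ∀ {f : ℕ → ℕ} (_ : Computable f) (τ : ℕ),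
      Computable fun k => Nat.pair k (mk c k (f k) τ) := by
    intro f hf τ
    unfold mk
    have hp := Primrec₂.natPair.to_comp
    exact hp.comp Computable.id (hp.comp (Computable.const c) (hp.comp Computable.id
      (hp.comp hf (Computable.const τ))))
  have htc : Computable t := by
    refine computable_of_re_graph (T := fun q : ℕ × ℕ => A (Nat.pair q.1 (mk c q.1 q.2 0)))
      (re_comp hA ?_) fun k j => hT k j
    unfold mk
    have hp := Primrec₂.natPair.to_comp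
    exact hp.comp Computable.fst (hp.comp (Computable.const c) (hp.comp Computable.fst
      (hp.comp Computable.snd (Computable.const 0))))
  refine ⟨t, fun k => A (Nat.pair k (mk c k (t k) 1)), fun k => A (Nat.pair k (mk c k (t k) 2)),
    fun k => A (Nat.pair k (mk c k (t k) 3)), htc, re_comp hA (hmk htc 1),
    re_comp hA (hmk htc 2), re_comp hA (hmk htc 3), ?_, ?_, ?_⟩
  all_goals intro k
  · by_cases hk : A (Nat.pair k (mk c k (t k) 1))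
    · refine Or.inl ⟨hk, (ht k).resolve_left fun h => ?_⟩
      have h1 : mk c k (t k) 1 ∈ γ k := (hγ _ _).2 ⟨hk, fun h' => hB1 k _ ((hBB _ _ _).2 h')⟩
      rw [h, mem_P1] at h1
      exact hB1 k _ h1
    · refine Or.inr ⟨hk, (ht k).resolve_right fun h => hk ?_⟩
      have h1 : mk c k (t k) 1 ∈ γ k := by
        rw [h, mem_Q1]
        exact Or.inl rfl
      exact ((hγ _ _).1 h1).1
  · intro hX
    constructor
    · intro hk
      have hP : γ k = P (t k) := by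
        refine (ht k).resolve_right fun h => hk ?_
        have h1 : mk c k (t k) 1 ∈ γ k := by
          rw [h, mem_Q1]
          exact Or.inl rfl
        exact ((hγ _ _).1 h1).1
      have h1 : mk c k (t k) 3 ∈ γ k := by
        rw [hP, mem_P3]
        exact Or.inl ⟨rfl, hX⟩
      exact ((hγ _ _).1 h1).1
    · intro hk hY
      have h1 : mk c k (t k) 1 ∈ γ k := (hγ _ _).2 ⟨hY, fun h' => hB1 k _ ((hBB _ _ _).2 h')⟩
      have h3 : mk c k (t k) 3 ∈ γ k := (hγ _ _).2 ⟨hk, fun h' => hB3 k _ ((hBB _ _ _).2 h')⟩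
      rcases ht k with h | h
      · rw [h, mem_P1] at h1
        exact hB1 k _ h1
      · rw [h, mem_Q3] at h3
        exact hB3 k _ h3
  · intro hX
    constructor
    · intro hk
      have hP : γ k = P (t k) := by
        refine (ht k).resolve_right fun h => hk ?_
        have h1 : mk c k (t k) 1 ∈ γ k := by
          rw [h, mem_Q1]
          exact Or.inl rfl
        exact ((hγ _ _).1 h1).1
      have h1 : mk c k (t k) 2 ∈ γ k := by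
        rw [hP, mem_P2]
        exact Or.inl rfl
      exact ((hγ _ _).1 h1).1
    · intro hk hY
      have h1 : mk c k (t k) 1 ∈ γ k := (hγ _ _).2 ⟨hY, fun h' => hB1 k _ ((hBB _ _ _).2 h')⟩
      have h2 : mk c k (t k) 2 ∈ γ k := by
        refine (hγ _ _).2 ⟨hk, fun h' => ?_⟩
        exact hE2 k _ (EE_of_BB ((hBB _ _ _).2 h') hX)
      rcases ht k with h | h
      · rw [h, mem_P1] at h1
        exact hB1 k _ h1
      · rw [h, mem_Q2] at h2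
        exact hE2 k _ h2

end Pool.Agent.Helper65.Rogers
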