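import Pool.Agent.Helper65.Rogers.Beta

set_option autoImplicit false

open Nat.Partrec

namespace Pool.Agent.Helper65.Rogers

/-- the family -/
def fam : Set (Set ℕ) := Set.range alphaN

noncomputable def alphaC : CompNumbering 2 fam where
  toFun := alphaN
  range_eq := rfl
  comp := ersh_alphaN

noncomputable def betaC : CompNumbering 2 fam where
  toFun := betaN
  range_eq := range_betaN
  comp := ersh_betaN

theorem computable_mod2 {f : ℕ → ℕ} (hf : Computable f) : Computable fun k => f k % 2 :=
  Primrec.nat_mod.to_comp.comp hf (Computable.const 2)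

theorem computablePred_eq {f g : ℕ → ℕ} (hf : Computable f) (hg : Computable g) :
    ComputablePred fun k => f k = g k := by
  refine ⟨fun k => inferInstance, ?_⟩
  exact (PrimrecRel.decide Primrec.eq).to_comp.comp hf hg

theorem alphaN_eq_Q_iff {i j : ℕ} (h : alphaN i = P j ∨ alphaN i = Q j) :
    alphaN i = Q j ↔ i % 2 = 1 := by
  rcases Nat.even_or_odd' i with ⟨m, hm | hm⟩
  · subst hm
    rw [alphaN_even] at h ⊢
    constructor
    · intro h'
      exact absurd h' (P_ne_Q _ _)
    · intro h'
      omega
  · subst hm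
    rw [alphaN_odd] at h ⊢
    constructor
    · intro _
      omega
    · intro _
      exact h.resolve_left fun h' => P_ne_Q _ _ h'.symm

theorem not_betaC_le : ¬ betaC ≤ alphaC := by
  classical
  rintro ⟨f, hf, h⟩
  have h' : ∀ k, betaN k = alphaN (f k) := fun k => congrFun h k
  have h1 : ∀ j, ¬ X j ↔ f (2 * j + 1) % 2 = 0 := by
    intro j
    have h2 := h' (2 * j + 1)
    rw [betaN_odd] at h2
    by_cases hX : X j
    · have h3 : Cset j = Q j := if_pos hX
      rw [h3] at h2
      have h4 := (alphaN_eq_Q_iff (Or.inr h2.symm)).1 h2.symm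
      constructor
      · intro h5
        exact absurd hX h5
      · intro h5
        omega
    · have h3 : Cset j = P j := if_neg hX
      rw [h3] at h2
      have h4 := (alphaN_eq_Q_iff (Or.inl h2.symm))
      constructor
      · intro _
        by_contra h5
        have h6 : alphaN (f (2 * j + 1)) = Q j := h4.2 (by omega)
        rw [← h2] at h6
        exact P_ne_Q _ _ h6
      · intro _
        exact hX
  refine not_re_compl_X ?_
  have h2 : ComputablePred fun j => f (2 * j + 1) % 2 = 0 := by
    refine computablePred_eq (computable_mod2 (hf.comp ?_)) (Computable.const 0)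
    exact Primrec.nat_double_succ.to_comp
  exact (re_of_computable h2).of_eq fun j => (h1 j).symm

theorem computable_ite {p : ℕ → Prop} (hp : ComputablePred p) [DecidablePred p] {f g : ℕ → ℕ}
    (hf : Computable f) (hg : Computable g) : Computable fun k => if p k then f k else g k :=
  ComputablePred.ite hf hg hp

theorem exists_between {γ : CompNumbering 2 fam} (h1 : alphaC ≤ γ) (h2 : ¬ γ ≤ alphaC) :
    ∃ δ : CompNumbering 2 fam, alphaC ≤ δ ∧ δ ≤ γ ∧ ¬ δ ≤ alphaC ∧ ¬ γ ≤ δ := by
  classical
  obtain ⟨u, hu, hαγ⟩ := h1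
  have hαγ' : ∀ i, alphaN i = γ.toFun (u i) := fun i => congrFun hαγ i
  obtain ⟨A, B, hA, hB, hAB⟩ := diff_of_ersh γ.comp
  have hγ : ∀ k x, x ∈ γ.toFun k ↔ A (Nat.pair k x) ∧ ¬ B (Nat.pair k x) := by
    intro k x
    rw [← hAB]
    simp
  obtain ⟨t, Y, G, N, ht, hY, hG, hN, hYt, hXN, hXG⟩ :=
    numbering_structure (γ := γ.toFun) γ.range_eq hA hB hγ
  have htype : ∀ k, γ.toFun k = P (t k) ∨ γ.toFun k = Q (t k) := by
    intro k
    rcases hYt k with h | h
    · exact Or.inr h.2
    · exact Or.inl h.2
  have hYQ : ∀ k, Y k ↔ γ.toFun k = Q (t k) := by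
    intro k
    rcases hYt k with h | h
    · exact ⟨fun _ => h.2, fun _ => h.1⟩
    · refine ⟨fun h' => absurd h' h.1, fun h' => ?_⟩
      rw [h.2] at h'
      exact absurd h' (P_ne_Q _ _)
  obtain ⟨a, ha⟩ := X_prop ht hY
  -- `Y` is not co-c.e.
  have hnY : ¬ REPred fun k => ¬ Y k := by
    intro hcon
    have hYc : ComputablePred Y := ComputablePred.computable_iff_re_compl_re.2 ⟨hY, hcon⟩
    apply h2
    refine ⟨fun k => if Y k then 2 * t k + 1 else 2 * t k, computable_ite hYc ?_ ?_, ?_⟩
    · exact Primrec.nat_double_succ.to_comp.comp ht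
    · exact Primrec.nat_double.to_comp.comp ht
    · funext k
      show γ.toFun k = alphaN (if Y k then 2 * t k + 1 else 2 * t k)
      rcases hYt k with h | h
      · rw [if_pos h.1, alphaN_odd, h.2]
      · rw [if_neg h.1, alphaN_even, h.2]
  have hbit : Computable fun k => bitE a (t k) :=
    (primrec_bitE (Primrec.const a) Primrec.id).to_comp.comp ht
  -- the splitting argument
  have key : ∀ σ < 2, ¬ ∃ W : ℕ → Prop, REPred W ∧ ∀ k, bitE a (t k) = σ → ¬ (Y k ↔ W k) := by
    intro σ hσ hW
    obtain ⟨σ', ⟨W, hW, hWk⟩, hre⟩ := ha σ hσ hW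
    apply hnY
    have hb : ComputablePred fun k => bitE a (t k) = σ' := computablePred_eq hbit (Computable.const σ')
    have hres : REPred fun k => (bitE a (t k) = σ' ∧ W k) ∨
        ((¬ bitE a (t k) = σ' ∧ X (t k)) ∧ N k) ∨ ((bitE a (t k) ≠ σ' ∧ ¬ X (t k)) ∧ G k) := by
      refine re_or (re_and (re_of_computable hb) hW) (re_or (re_and (re_and
        (re_of_computable hb.not) (re_comp re_X ht)) hN) (re_and ?_ hG))
      exact re_comp (p := fun j => bitE a j ≠ σ' ∧ ¬ X j) hre ht
    refine hres.of_eq fun k => ?_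
    by_cases hk : bitE a (t k) = σ'
    · have h3 := hWk k hk
      constructor
      · rintro (⟨_, h⟩ | ⟨⟨h, _⟩, _⟩ | ⟨⟨h, _⟩, _⟩)
        · intro hYk
          exact h3 ⟨fun _ => h, fun _ => hYk⟩
        · exact absurd hk h
        · exact absurd hk h
      · intro hYk
        refine Or.inl ⟨hk, ?_⟩
        by_contra hWk'
        exact h3 ⟨fun h => absurd h hYk, fun h => absurd h hWk'⟩
    · by_cases hX : X (t k)
      · rw [hXN k hX]
        constructor
        · rintro (⟨h, _⟩ | ⟨_, h⟩ | ⟨⟨_, h⟩, _⟩)
          · exact absurd h hk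
          · exact h
          · exact absurd hX h
        · intro h
          exact Or.inr (Or.inl ⟨⟨hk, hX⟩, h⟩)
      · rw [hXG k hX]
        constructor
        · rintro (⟨h, _⟩ | ⟨⟨_, h⟩, _⟩ | ⟨_, h⟩)
          · exact absurd h hk
          · exact absurd h hX
          · exact h
        · intro h
          exact Or.inr (Or.inr ⟨⟨hk, hX⟩, h⟩)
  -- the intermediate numbering
  have hb0 : ComputablePred fun i => bitE a (t i) = 0 := computablePred_eq hbit (Computable.const 0)
  let h : ℕ → ℕ := fun n => if n % 2 = 0 then u (n / 2) else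
    if bitE a (t (n / 2)) = 0 then n / 2 else u 0
  have hdiv : Computable fun n : ℕ => n / 2 :=
    Primrec.nat_div.to_comp.comp Computable.id (Computable.const 2)
  have hh : Computable h := by
    refine computable_ite (p := fun n => n % 2 = 0)
      (computablePred_eq (computable_mod2 Computable.id) (Computable.const 0)) (hu.comp hdiv) ?_
    refine computable_ite (p := fun n => bitE a (t (n / 2)) = 0)
      (computablePred_eq (hbit.comp hdiv) (Computable.const 0)) hdiv (Computable.const _)
  have hrange : Set.range (γ.toFun ∘ h) = fam := by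
    apply Set.Subset.antisymm
    · rintro _ ⟨n, rfl⟩
      exact γ.range_eq.subset ⟨h n, rfl⟩
    · rintro _ ⟨i, rfl⟩
      refine ⟨2 * i, ?_⟩
      show γ.toFun (h (2 * i)) = alphaN i
      rw [hαγ' i]
      simp only [h]
      rw [if_pos (by omega)]
      congr 2
      omega
  let δ : CompNumbering 2 fam :=
    { toFun := γ.toFun ∘ h
      range_eq := hrange
      comp := ersh_comp γ.comp hh }
  have hδeven : ∀ i, γ.toFun (h (2 * i)) = alphaN i := by
    intro i
    rw [hαγ' i]
    simp only [h]
    rw [if_pos (by omega)]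
    congr 2
    omega
  have hδodd0 : ∀ i, bitE a (t i) = 0 → γ.toFun (h (2 * i + 1)) = γ.toFun i := by
    intro i hi
    have h3 : (2 * i + 1) / 2 = i := by omega
    simp only [h]
    rw [if_neg (by omega), h3, if_pos hi]
  have hδodd1 : ∀ i, ¬ bitE a (t i) = 0 → γ.toFun (h (2 * i + 1)) = alphaN 0 := by
    intro i hi
    have h3 : (2 * i + 1) / 2 = i := by omega
    simp only [h]
    rw [if_neg (by omega), h3, if_neg hi, hαγ']
  refine ⟨δ, ⟨fun i => 2 * i, Primrec.nat_double.to_comp, ?_⟩, ⟨h, hh, rfl⟩, ?_, ?_⟩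
  · funext i
    exact (hδeven i).symm
  · rintro ⟨v, hv, hvδ⟩
    have hvδ' : ∀ n, γ.toFun (h n) = alphaN (v n) := fun n => congrFun hvδ n
    refine key 0 (by norm_num) ⟨fun k => v (2 * k + 1) % 2 = 0, ?_, ?_⟩
    · refine re_of_computable (computablePred_eq (computable_mod2 (hv.comp ?_)) (Computable.const 0))
      exact Primrec.nat_double_succ.to_comp
    · intro k hk hiff
      have h3 : γ.toFun k = alphaN (v (2 * k + 1)) := by
        rw [← hvδ', hδodd0 k hk]
      have h4 : alphaN (v (2 * k + 1)) = Q (t k) ↔ v (2 * k + 1) % 2 = 1 :=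
        alphaN_eq_Q_iff (h3 ▸ htype k)
      rw [← h3, ← hYQ] at h4
      rw [h4] at hiff
      omega
  · rintro ⟨v, hv, hvδ⟩
    have hvδ' : ∀ n, γ.toFun n = γ.toFun (h (v n)) := fun n => congrFun hvδ n
    refine key 1 (by norm_num) ⟨fun k => ¬ (v k % 2 = 0 ∧ v k / 2 % 2 = 1), ?_, ?_⟩
    · have h3 : ComputablePred fun k => v k % 2 = 0 :=
        computablePred_eq (computable_mod2 hv) (Computable.const 0)
      have h4 : ComputablePred fun k => ¬ v k / 2 % 2 = 1 :=
        (computablePred_eq (computable_mod2 (hdiv.comp hv)) (Computable.const 1)).not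
      exact (re_or (re_of_computable h3.not) (re_of_computable h4)).of_eq fun k => by tauto
    · intro k hk hiff
      beta_reduce at hiff
      have hne : ¬ bitE a (t k) = 0 := by omega
      rcases Nat.even_or_odd' (v k) with ⟨m, hm | hm⟩
      · have h3 : γ.toFun k = alphaN m := by rw [hvδ' k, hm, hδeven]
        have h4 : alphaN m = Q (t k) ↔ m % 2 = 1 := alphaN_eq_Q_iff (h3 ▸ htype k)
        rw [← h3, ← hYQ] at h4
        rw [h4, hm] at hiff
        omega
      · have h5 : ¬ Y k := by
          by_cases hb : bitE a (t m) = 0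
          · have h3 : γ.toFun k = γ.toFun m := by
              rw [hvδ' k, hm, hδodd0 m hb]
            exfalso
            have h6 : t k = t m := by
              apply type_unique
              rcases htype k with h7 | h7 <;> rcases htype m with h8 | h8 <;>
                rw [h3, h8] at h7 <;> simp [h7]
            rw [h6] at hne
            exact hne hb
          · have h3 : γ.toFun k = alphaN 0 := by
              rw [hvδ' k, hm, hδodd1 m hb]
            have h4 : alphaN 0 = Q (t k) ↔ 0 % 2 = 1 := alphaN_eq_Q_iff (h3 ▸ htype k)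
            rw [hYQ, h3, h4]
            norm_num
        refine h5 (hiff.2 ?_)
        omega

/-- A non-greatest element of a Rogers semilattice in the Ershov hierarchy without a minimal
cover. -/
theorem main : ∃ (𝒜 : Set (Set ℕ)) (a : RogersSemilattice 2 𝒜),
    (¬ ∀ b, b ≤ a) ∧ ∀ b, ¬ a ⋖ b := by
  refine ⟨fam, toAntisymmetrization (· ≤ ·) alphaC, ?_, ?_⟩
  · intro h
    have h1 := h (toAntisymmetrization (· ≤ ·) betaC)
    rw [toAntisymmetrization_le_toAntisymmetrization_iff] at h1
    exact not_betaC_le h1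
  · intro b
    induction b using Quotient.inductionOn with
    | h γ =>
      intro hcov
      change toAntisymmetrization (· ≤ ·) alphaC ⋖ toAntisymmetrization (· ≤ ·) γ at hcov
      have hlt := hcov.1
      rw [toAntisymmetrization_lt_toAntisymmetrization_iff] at hlt
      obtain ⟨h1, h2⟩ := lt_iff_le_not_ge.1 hlt
      obtain ⟨δ, hd1, hd2, hd3, hd4⟩ := exists_between h1 h2
      refine hcov.2 (c := toAntisymmetrization (· ≤ ·) δ) ?_ ?_
      · rw [toAntisymmetrization_lt_toAntisymmetrization_iff]
        exact lt_iff_le_not_ge.2 ⟨hd1, hd3⟩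
      · rw [toAntisymmetrization_lt_toAntisymmetrization_iff]
        exact lt_iff_le_not_ge.2 ⟨hd2, hd4⟩

end Pool.Agent.Helper65.Rogers
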