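import Mathlib

set_option autoImplicit false

open Nat.Partrec

namespace Pool.Agent.Helper65.Rogers

/-- The `s`-th approximation to the `n`-th c.e. set. -/
def wn (n s z : ℕ) : Prop := (Code.evaln s (Denumerable.ofNat Code n) z).isSome = true

instance (n s z : ℕ) : Decidable (wn n s z) := by unfold wn; infer_instance

theorem wn_mono {n s s' z : ℕ} (h : s ≤ s') (hw : wn n s z) : wn n s' z := by
  unfold wn at *
  obtain ⟨x, hx⟩ := Option.isSome_iff_exists.1 hw
  exact Option.isSome_iff_exists.2 ⟨x, Code.evaln_mono h hx⟩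

theorem primrec_wn {α : Type*} [Primcodable α] {f g h : α → ℕ} (hf : Primrec f) (hg : Primrec g)
    (hh : Primrec h) : PrimrecPred fun a => wn (f a) (g a) (h a) := by
  unfold wn
  refine Primrec.primrecPred ?_
  have : Primrec fun a => (Code.evaln (g a) (Denumerable.ofNat Code (f a)) (h a)).isSome :=
    Primrec.option_isSome.comp (Code.primrec_evaln.comp
      (((hg.pair ((Primrec.ofNat Code).comp hf))).pair hh))
  exact this.of_eq fun a => by simp

section RE

variable {α β : Type*} [Primcodable α] [Primcodable β]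

theorem re_iff {p : α → Prop} :
    REPred p ↔ ∃ f : α → ℕ → Bool, Computable₂ f ∧ ∀ a, p a ↔ ∃ n, f a n = true := by
  constructor
  · intro hp
    obtain ⟨c, hc⟩ := Code.exists_code.1 hp
    refine ⟨fun a n => (Code.evaln n c (Encodable.encode a)).isSome, ?_, ?_⟩
    · refine Primrec.to_comp ?_
      exact Primrec.option_isSome.comp (Code.primrec_evaln.comp
        (((Primrec.snd.pair (Primrec.const c))).pair (Primrec.encode.comp Primrec.fst)))
    · intro a
      have h1 : p a ↔ (Code.eval c (Encodable.encode a)).Dom := by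
        rw [hc]
        simp [Part.assert]
      rw [h1, Part.dom_iff_mem]
      constructor
      · rintro ⟨x, hx⟩
        obtain ⟨k, hk⟩ := Code.evaln_complete.1 hx
        exact ⟨k, Option.isSome_iff_exists.2 ⟨x, hk⟩⟩
      · rintro ⟨n, hn⟩
        obtain ⟨x, hx⟩ := Option.isSome_iff_exists.1 hn
        exact ⟨x, Code.evaln_sound hx⟩
  · rintro ⟨f, hf, h⟩
    have h1 : Partrec fun a => Nat.rfind fun n => (Part.some (f a n) : Part Bool) :=
      Partrec.rfind hf.partrec₂
    refine (Partrec.dom_re h1).of_eq fun a => ?_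
    rw [h]
    refine Nat.rfind_dom.trans ?_
    constructor
    · rintro ⟨n, hn, -⟩
      exact ⟨n, (Part.mem_some_iff.1 hn).symm⟩
    · rintro ⟨n, hn⟩
      exact ⟨n, Part.mem_some_iff.2 hn.symm, fun _ => trivial⟩

theorem re_of_exists_primrec {p : α → Prop} {R : α × ℕ → Prop} (hR : PrimrecPred R)
    (h : ∀ a, p a ↔ ∃ n, R (a, n)) : REPred p := by
  classical
  refine re_iff.2 ⟨fun a n => decide (R (a, n)), ?_, fun a => by rw [h]; simp⟩
  exact (PrimrecPred.decide hR).to_comp

theorem exists_code_of_re {p : ℕ → Prop} (hp : REPred p) :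
    ∃ n, ∀ z, p z ↔ ∃ s, wn n s z := by
  obtain ⟨c, hc⟩ := Code.exists_code.1 hp
  refine ⟨Encodable.encode c, fun z => ?_⟩
  have h1 : p z ↔ (Code.eval c (Encodable.encode z)).Dom := by
    rw [hc]
    simp [Part.assert]
  have h2 : Encodable.encode z = z := rfl
  rw [h1, h2, Part.dom_iff_mem]
  unfold wn
  rw [Denumerable.ofNat_encode]
  constructor
  · rintro ⟨x, hx⟩
    obtain ⟨k, hk⟩ := Code.evaln_complete.1 hx
    exact ⟨k, Option.isSome_iff_exists.2 ⟨x, hk⟩⟩
  · rintro ⟨n, hn⟩
    obtain ⟨x, hx⟩ := Option.isSome_iff_exists.1 hn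
    exact ⟨x, Code.evaln_sound hx⟩

theorem re_wn (n : ℕ) : REPred fun z => ∃ s, wn n s z :=
  re_of_exists_primrec (R := fun q => wn n q.2 q.1)
    (primrec_wn (Primrec.const n) Primrec.snd Primrec.fst) fun _ => Iff.rfl

theorem re_comp {p : β → Prop} (hp : REPred p) {f : α → β} (hf : Computable f) :
    REPred fun a => p (f a) := by
  obtain ⟨g, hg, h⟩ := re_iff.1 hp
  exact re_iff.2 ⟨fun a n => g (f a) n, hg.comp (hf.comp Computable.fst) Computable.snd,
    fun a => h (f a)⟩

theorem re_or {p q : α → Prop} (hp : REPred p) (hq : REPred q) : REPred fun a => p a ∨ q a := by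
  obtain ⟨f, hf, h⟩ := re_iff.1 hp
  obtain ⟨g, hg, h'⟩ := re_iff.1 hq
  refine re_iff.2 ⟨fun a n => f a n || g a n, ?_, fun a => ?_⟩
  · exact Primrec.or.to_comp.comp hf hg
  · rw [h, h']
    constructor
    · rintro (⟨n, hn⟩ | ⟨n, hn⟩)
      · exact ⟨n, by simp [hn]⟩
      · exact ⟨n, by simp [hn]⟩
    · rintro ⟨n, hn⟩
      rw [Bool.or_eq_true] at hn
      exact hn.imp (fun h => ⟨n, h⟩) (fun h => ⟨n, h⟩)

theorem re_and {p q : α → Prop} (hp : REPred p) (hq : REPred q) : REPred fun a => p a ∧ q a := by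
  obtain ⟨f, hf, h⟩ := re_iff.1 hp
  obtain ⟨g, hg, h'⟩ := re_iff.1 hq
  refine re_iff.2 ⟨fun a n => f a n.unpair.1 && g a n.unpair.2, ?_, fun a => ?_⟩
  · have h1 : Computable fun q : α × ℕ => q.2.unpair := Computable.unpair.comp Computable.snd
    exact Primrec.and.to_comp.comp
      (hf.comp Computable.fst (Computable.fst.comp h1))
      (hg.comp Computable.fst (Computable.snd.comp h1))
  · rw [h, h']
    constructor
    · rintro ⟨⟨n, hn⟩, ⟨m, hm⟩⟩
      exact ⟨Nat.pair n m, by simp [hn, hm]⟩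
    · rintro ⟨n, hn⟩
      rw [Bool.and_eq_true] at hn
      exact ⟨⟨_, hn.1⟩, ⟨_, hn.2⟩⟩

theorem re_of_computable {p : α → Prop} (hp : ComputablePred p) : REPred p := hp.to_re

/-- A total function with a c.e. graph is computable. -/
theorem computable_of_re_graph {t : ℕ → ℕ} {T : ℕ × ℕ → Prop} (hT : REPred T)
    (h : ∀ k j, T (k, j) ↔ t k = j) : Computable t := by
  obtain ⟨f, hf, h1⟩ := re_iff.1 hT
  let P : ℕ → ℕ → Prop := fun k m => f (k, m.unpair.1) m.unpair.2 = true
  have hP : ComputablePred fun p : ℕ × ℕ => P p.1 p.2 := by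
    refine ⟨fun p => inferInstanceAs (Decidable (f (p.1, p.2.unpair.1) p.2.unpair.2 = true)), ?_⟩
    have h2 : Computable fun q : ℕ × ℕ => q.2.unpair := Computable.unpair.comp Computable.snd
    have h3 : Computable fun p : ℕ × ℕ => f (p.1, p.2.unpair.1) p.2.unpair.2 :=
      hf.comp (Computable.fst.pair (Computable.fst.comp h2)) (Computable.snd.comp h2)
    exact h3.of_eq fun p => by simp [P]
  have hex : ∀ k, ∃ m, P k m := by
    intro k
    obtain ⟨n, hn⟩ := (h1 (k, t k)).1 ((h k (t k)).2 rfl)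
    exact ⟨Nat.pair (t k) n, by simpa [P] using hn⟩
  have : DecidableRel P := fun k m =>
    inferInstanceAs (Decidable (f (k, m.unpair.1) m.unpair.2 = true))
  have h4 := Computable.find (P := P) hP hex
  have h5 : Computable fun k => (Nat.find (hex k)).unpair.1 :=
    Computable.fst.comp (Computable.unpair.comp h4)
  refine h5.of_eq fun k => ?_
  have h6 := Nat.find_spec (hex k)
  exact ((h k _).1 ((h1 _).2 ⟨_, h6⟩)).symm

end RE

end Pool.Agent.Helper65.Rogers
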