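import Pool.Agent.Helper65.Rogers.Xset

set_option autoImplicit false

open Nat.Partrec

namespace Pool.Agent.Helper65.Rogers

theorem pp_mem_finite {F : Set ℕ} (hF : F.Finite) : PrimrecPred fun j => j ∈ F := by
  have h1 : PrimrecRel fun (L : List ℕ) (b : ℕ) => ∃ a ∈ L, a = b :=
    PrimrecRel.exists_mem_list Primrec.eq
  have h2 := h1.comp (Primrec.const (α := ℕ) hF.toFinset.toList) Primrec.id
  exact h2.of_eq fun j => by simp

theorem X_column {m j j' : ℕ} (hj : X j) (hj' : X j') (h : j.unpair.2 = m)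
    (h' : j'.unpair.2 = m) : j = j' := by
  obtain ⟨_, n, _, h1, h2⟩ := hj
  obtain ⟨_, n', _, h1', h2'⟩ := hj'
  rw [h] at h1
  rw [h'] at h1'
  have h3 := First_unique h1 h1'
  rw [← Nat.pair_unpair j, ← Nat.pair_unpair j', ← h2, ← h2', h, h', h3]

theorem cert_of_agree {t : ℕ → ℕ} {Y : ℕ → Prop} {a c : ℕ}
    (hT : ∀ k j, (∃ s, wn a.unpair.1 s (Nat.pair k j)) ↔ t k = j)
    (hY : ∀ k, Y k ↔ ∃ s, wn a.unpair.2 s k)
    (h : ∀ k, bitE a (t k) = side c → ¬ (Y k ↔ ∃ s, wn c.unpair.1 s k)) :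
    ∀ r, ∃ s, Cert a c r s := by
  have h1 : ∀ k, ∃ s, wn a.unpair.1 s (Nat.pair k (t k)) ∧ t k < s ∧
      (Y k → wn a.unpair.2 s k) ∧ ((∃ s, wn c.unpair.1 s k) → wn c.unpair.1 s k) := by
    intro k
    obtain ⟨s1, hs1⟩ := (hT k (t k)).2 rfl
    have h2 : ∃ s2, Y k → wn a.unpair.2 s2 k := by
      by_cases hk : Y k
      · obtain ⟨s, hs⟩ := (hY k).1 hk
        exact ⟨s, fun _ => hs⟩
      · exact ⟨0, fun h => absurd h hk⟩
    have h3 : ∃ s3, (∃ s, wn c.unpair.1 s k) → wn c.unpair.1 s3 k := by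
      by_cases hk : ∃ s, wn c.unpair.1 s k
      · obtain ⟨s, hs⟩ := hk
        exact ⟨s, fun _ => hs⟩
      · exact ⟨0, fun h => absurd h hk⟩
    obtain ⟨s2, hs2⟩ := h2
    obtain ⟨s3, hs3⟩ := h3
    refine ⟨s1 + s2 + s3 + t k + 1, wn_mono (by omega) hs1, by omega,
      fun h => wn_mono (by omega) (hs2 h), fun h => wn_mono (by omega) (hs3 h)⟩
  choose S hS1 hS2 hS3 hS4 using h1
  intro r
  refine ⟨r + ∑ k ∈ Finset.range r, S k, r + ∑ k ∈ Finset.range r, S k, Nat.lt_succ_self _,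
    Nat.le_add_right _ _, fun k hk => ?_⟩
  have hle : S k ≤ r + ∑ k ∈ Finset.range r, S k :=
    (Finset.single_le_sum (f := S) (fun _ _ => Nat.zero_le _) (Finset.mem_range.2 hk)).trans
      (Nat.le_add_left _ _)
  refine ⟨t k, (hS2 k).trans_le hle, wn_mono hle (hS1 k), fun hb hiff => h k hb ?_⟩
  constructor
  · intro hy
    exact ⟨_, hiff.1 (wn_mono hle (hS3 k hy))⟩
  · intro hw
    exact (hY k).2 ⟨_, hiff.2 (wn_mono hle (hS4 k hw))⟩

theorem agree_of_cert {t : ℕ → ℕ} {Y : ℕ → Prop} {a c : ℕ}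
    (hT : ∀ k j, (∃ s, wn a.unpair.1 s (Nat.pair k j)) ↔ t k = j)
    (hY : ∀ k, Y k ↔ ∃ s, wn a.unpair.2 s k)
    (h : ∀ r, ∃ s, Cert a c r s) :
    ∀ k, bitE a (t k) = side c → ¬ (Y k ↔ ∃ s, wn c.unpair.1 s k) := by
  intro k hb hiff
  have h2 : ∃ s2, Y k → wn a.unpair.2 s2 k := by
    by_cases hk : Y k
    · obtain ⟨s, hs⟩ := (hY k).1 hk
      exact ⟨s, fun _ => hs⟩
    · exact ⟨0, fun h => absurd h hk⟩
  have h3 : ∃ s3, (∃ s, wn c.unpair.1 s k) → wn c.unpair.1 s3 k := by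
    by_cases hk : ∃ s, wn c.unpair.1 s k
    · obtain ⟨s, hs⟩ := hk
      exact ⟨s, fun _ => hs⟩
    · exact ⟨0, fun h => absurd h hk⟩
  obtain ⟨s2, hs2⟩ := h2
  obtain ⟨s3, hs3⟩ := h3
  obtain ⟨s, s', _, hr, hag⟩ := h (k + 1 + s2 + s3)
  obtain ⟨j, _, hj, h4⟩ := hag k (by omega)
  have htj : t k = j := (hT k j).1 ⟨_, hj⟩
  refine h4 (htj ▸ hb) ?_
  constructor
  · intro hy
    exact wn_mono (by omega) (hs3 (hiff.1 ((hY k).2 ⟨_, hy⟩)))
  · intro hw
    exact wn_mono (by omega) (hs2 (hiff.2 ⟨_, hw⟩))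

/-- The key property of the set `X`. -/
theorem X_prop {t : ℕ → ℕ} (ht : Computable t) {Y : ℕ → Prop} (hY : REPred Y) :
    ∃ a : ℕ, ∀ σ < 2,
      (∃ W : ℕ → Prop, REPred W ∧ ∀ k, bitE a (t k) = σ → ¬ (Y k ↔ W k)) →
      ∃ σ', (∃ W : ℕ → Prop, REPred W ∧ ∀ k, bitE a (t k) = σ' → ¬ (Y k ↔ W k)) ∧
        REPred fun j => bitE a j ≠ σ' ∧ ¬ X j := by
  classical
  have hTre : REPred fun z : ℕ => t z.unpair.1 = z.unpair.2 := by
    refine re_iff.2 ⟨fun z _ => decide (t z.unpair.1 = z.unpair.2), ?_, fun z => by simp⟩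
    have h1 : Computable fun q : ℕ × ℕ => t q.1.unpair.1 :=
      ht.comp (Computable.fst.comp (Computable.unpair.comp Computable.fst))
    have h2 : Computable fun q : ℕ × ℕ => q.1.unpair.2 :=
      Computable.snd.comp (Computable.unpair.comp Computable.fst)
    exact (PrimrecRel.decide Primrec.eq).to_comp.comp h1 h2
  obtain ⟨nT, hnT⟩ := exists_code_of_re hTre
  obtain ⟨nY, hnY⟩ := exists_code_of_re hY
  have hT : ∀ k j, (∃ s, wn (Nat.pair nT nY).unpair.1 s (Nat.pair k j)) ↔ t k = j := by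
    intro k j
    rw [Nat.unpair_pair]
    rw [← hnT]
    simp
  have hY' : ∀ k, Y k ↔ ∃ s, wn (Nat.pair nT nY).unpair.2 s k := by
    intro k
    rw [Nat.unpair_pair]
    exact hnY k
  refine ⟨Nat.pair nT nY, ?_⟩
  set a := Nat.pair nT nY with ha
  rintro σ hσ ⟨W, hW, hWk⟩
  obtain ⟨nW, hnW⟩ := exists_code_of_re hW
  have hex : ∃ c, ∀ r, ∃ s, Cert a c r s := by
    refine ⟨Nat.pair nW σ, cert_of_agree (t := t) (Y := Y) hT hY' fun k hk => ?_⟩
    have h1 : side (Nat.pair nW σ) = σ := by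
      unfold side
      rw [Nat.unpair_pair]
      exact Nat.mod_eq_of_lt hσ
    rw [h1] at hk
    rw [Nat.unpair_pair]
    simp only [← hnW]
    exact hWk k hk
  set c := Nat.find hex with hc
  have hcs : ∀ r, ∃ s, Cert a c r s := Nat.find_spec hex
  have hJ : ∃ J, ∀ c' < c, ∀ s, ¬ Cert a c' J s := by
    have h1 : ∀ c' : ℕ, ∃ J, c' < c → ∀ s, ¬ Cert a c' J s := by
      intro c'
      by_cases h : c' < c
      · have h2 := Nat.find_min hex h
        push Not at h2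
        obtain ⟨r, hr⟩ := h2
        exact ⟨r, fun _ => hr⟩
      · exact ⟨0, fun h' => absurd h' h⟩
    choose F hF using h1
    refine ⟨∑ c' ∈ Finset.range c, F c', fun c' hc' s hs => hF c' hc' s (Cert_anti ?_ hs)⟩
    exact Finset.single_le_sum (f := F) (fun _ _ => Nat.zero_le _) (Finset.mem_range.2 hc')
  obtain ⟨J, hJ⟩ := hJ
  refine ⟨side c, ⟨fun k => ∃ s, wn c.unpair.1 s k, re_wn _, agree_of_cert hT hY' hcs⟩, ?_⟩
  -- the exceptional set
  set M := max a c with hM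
  let F : Set ℕ := {j | X j ∧ (j < J ∨ j.unpair.2 ≤ M)}
  have hF : F.Finite := by
    have h1 : F ⊆ {j | j < J} ∪ ⋃ m ∈ Set.Iic M, {j | X j ∧ j.unpair.2 = m} := by
      rintro j ⟨h1, h2 | h2⟩
      · exact Or.inl h2
      · exact Or.inr (Set.mem_biUnion h2 ⟨h1, rfl⟩)
    refine ((Set.finite_lt_nat J).union ((Set.finite_Iic M).biUnion fun m _ => ?_)).subset h1
    refine Set.Subsingleton.finite ?_
    intro j hj j' hj'
    exact X_column hj.1 hj'.1 hj.2 hj'.2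
  refine re_of_exists_primrec (R := fun q : ℕ × ℕ => ¬ (bitE a q.1 = side c) ∧ ¬ (q.1 ∈ F) ∧
    ((q.1 + 1 ≤ J ∨ q.1.unpair.2 ≤ M) ∨ (Cert a c q.1 q.2 ∧
      ¬ Xs (Nat.pair q.2 q.1.unpair.1) q.1))) ?_ ?_
  · refine (pp_eq (primrec_bitE (Primrec.const a) Primrec.fst) (Primrec.const _)).not.and
      (((pp_mem_finite hF).comp Primrec.fst).not.and ?_)
    refine ((pp_le (Primrec.succ.comp Primrec.fst) (Primrec.const J)).or
      (pp_le (pr_unpair2 Primrec.fst) (Primrec.const M))).or ?_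
    exact (primrec_Cert (Primrec.const a) (Primrec.const c) Primrec.fst Primrec.snd).and
      (primrec_Xs (pr_pair Primrec.snd (pr_unpair1 Primrec.fst)) Primrec.fst).not
  · intro j
    constructor
    · rintro ⟨h1, h2⟩
      obtain ⟨s, hs⟩ := hcs j
      refine ⟨s, h1, fun hj => h2 hj.1, Or.inr ⟨hs, fun h => h2 ⟨_, h⟩⟩⟩
    · rintro ⟨s, h1, h2, h3⟩
      refine ⟨h1, fun hXj => ?_⟩
      have h4 : ¬ (j < J ∨ j.unpair.2 ≤ M) := fun h => h2 ⟨hXj, h⟩
      push Not at h4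
      rcases h3 with h3 | ⟨h3, h5⟩
      · rcases h3 with h3 | h3
        · exact absurd h3 (by omega)
        · exact absurd h3 (not_le.2 h4.2)
      · obtain ⟨_, n, _, hn, hn2⟩ := hXj
        refine h5 ⟨n, ?_, hn, hn2⟩
        -- the action took place before stage `s`
        have hOK := hn.1.2
        rw [hn2, Nat.pair_unpair] at hOK
        have hlt : n.unpair.1 < s := by
          by_contra hge
          push Not at hge
          refine h1 (hOK a (lt_of_le_of_lt (le_max_left _ _) h4.2) c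
            (lt_of_le_of_lt (le_max_right _ _) h4.2) (Cert_mono hge h3) fun c' hc' hcert => ?_)
          exact hJ c' hc' _ (Cert_anti h4.1 hcert)
        rw [← Nat.pair_unpair n, hn2]
        exact Nat.pair_lt_pair_left _ hlt

end Pool.Agent.Helper65.Rogers
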