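import Pool.Agent.Helper65.Rogers.RE

set_option autoImplicit false

open Nat.Partrec

namespace Pool.Agent.Helper65.Rogers

section PR

variable {α : Type*} [Primcodable α]

theorem pp_forall_lt {f : α → ℕ} (hf : Primrec f) {R : α × ℕ → Prop} (hR : PrimrecPred R) :
    PrimrecPred fun a => ∀ x < f a, R (a, x) := by
  have h1 : PrimrecRel fun (x : ℕ) (a : α) => R (a, x) :=
    (hR.comp (Primrec.snd.pair Primrec.fst : Primrec fun q : ℕ × α => (q.2, q.1)))
  exact ((PrimrecRel.forall_mem_list h1).comp (Primrec.list_range.comp hf) Primrec.id).of_eq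
    (by simp)

theorem pp_exists_lt {f : α → ℕ} (hf : Primrec f) {R : α × ℕ → Prop} (hR : PrimrecPred R) :
    PrimrecPred fun a => ∃ x < f a, R (a, x) := by
  have h1 : PrimrecRel fun (x : ℕ) (a : α) => R (a, x) :=
    (hR.comp (Primrec.snd.pair Primrec.fst : Primrec fun q : ℕ × α => (q.2, q.1)))
  exact ((PrimrecRel.exists_mem_list h1).comp (Primrec.list_range.comp hf) Primrec.id).of_eq
    (by simp)

theorem pp_imp {p q : α → Prop} (hp : PrimrecPred p) (hq : PrimrecPred q) :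
    PrimrecPred fun a => p a → q a := by
  refine (hp.not.or hq).of_eq fun a => ?_
  tauto

theorem pp_iff {p q : α → Prop} (hp : PrimrecPred p) (hq : PrimrecPred q) :
    PrimrecPred fun a => (p a ↔ q a) := by
  refine ((pp_imp hp hq).and (pp_imp hq hp)).of_eq fun a => ?_
  tauto

theorem pp_eq {f g : α → ℕ} (hf : Primrec f) (hg : Primrec g) : PrimrecPred fun a => f a = g a :=
  PrimrecRel.comp Primrec.eq hf hg

theorem pp_le {f g : α → ℕ} (hf : Primrec f) (hg : Primrec g) : PrimrecPred fun a => f a ≤ g a :=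
  PrimrecRel.comp Primrec.nat_le hf hg

theorem pr_unpair1 {f : α → ℕ} (hf : Primrec f) : Primrec fun a => (f a).unpair.1 :=
  Primrec.fst.comp (Primrec.unpair.comp hf)

theorem pr_unpair2 {f : α → ℕ} (hf : Primrec f) : Primrec fun a => (f a).unpair.2 :=
  Primrec.snd.comp (Primrec.unpair.comp hf)

theorem pr_pair {f g : α → ℕ} (hf : Primrec f) (hg : Primrec g) :
    Primrec fun a => Nat.pair (f a) (g a) :=
  Primrec₂.natPair.comp hf hg

end PR

/-- the `a`-th bit of the first component of `j` -/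
def bitE (a j : ℕ) : ℕ := (j.unpair.1 / 2 ^ a) % 2

/-- the side of a requirement -/
def side (c : ℕ) : ℕ := c.unpair.2 % 2

def Agree (a c r s : ℕ) : Prop :=
  ∀ k < r, ∃ j < s, wn a.unpair.1 s (Nat.pair k j) ∧
    (bitE a j = side c → ¬ (wn a.unpair.2 s k ↔ wn c.unpair.1 s k))

def Cert (a c r s : ℕ) : Prop := ∃ s' < s + 1, r ≤ s' ∧ Agree a c r s'

def OK (j s : ℕ) : Prop :=
  ∀ a < j.unpair.2, ∀ c < j.unpair.2, Cert a c j s → (∀ c' < c, ¬ Cert a c' j s) →
    bitE a j = side c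

def Act (m n : ℕ) : Prop :=
  wn m n.unpair.1 (Nat.pair n.unpair.2 m) ∧ OK (Nat.pair n.unpair.2 m) n.unpair.1

def First (m n : ℕ) : Prop := Act m n ∧ ∀ n' < n, ¬ Act m n'

/-- the approximations to the set `X` -/
def Xs (s j : ℕ) : Prop := ∃ n < s, First j.unpair.2 n ∧ n.unpair.2 = j.unpair.1

/-- the set `X` -/
def X (j : ℕ) : Prop := ∃ s, Xs s j

section PR2

variable {α : Type*} [Primcodable α]

theorem primrec_bitE {f g : α → ℕ} (hf : Primrec f) (hg : Primrec g) :
    Primrec fun a => bitE (f a) (g a) := by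
  unfold bitE
  have h2 : Primrec₂ ((· ^ ·) : ℕ → ℕ → ℕ) := Primrec₂.unpaired'.1 Nat.Primrec.pow
  exact Primrec.nat_mod.comp (Primrec.nat_div.comp (pr_unpair1 hg)
    (h2.comp (Primrec.const 2) hf)) (Primrec.const 2)

theorem primrec_side {f : α → ℕ} (hf : Primrec f) : Primrec fun a => side (f a) := by
  unfold side
  exact Primrec.nat_mod.comp (pr_unpair2 hf) (Primrec.const 2)

theorem primrec_Agree {a c r s : α → ℕ} (ha : Primrec a) (hc : Primrec c) (hr : Primrec r)
    (hs : Primrec s) : PrimrecPred fun x => Agree (a x) (c x) (r x) (s x) := by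
  unfold Agree
  refine pp_forall_lt (R := fun q : α × ℕ => ∃ j < s q.1, wn (a q.1).unpair.1 (s q.1)
    (Nat.pair q.2 j) ∧ (bitE (a q.1) j = side (c q.1) →
      ¬ (wn (a q.1).unpair.2 (s q.1) q.2 ↔ wn (c q.1).unpair.1 (s q.1) q.2))) hr ?_
  have ha1 : Primrec fun q : (α × ℕ) × ℕ => a q.1.1 := ha.comp (Primrec.fst.comp Primrec.fst)
  have hc1 : Primrec fun q : (α × ℕ) × ℕ => c q.1.1 := hc.comp (Primrec.fst.comp Primrec.fst)
  have hs1 : Primrec fun q : (α × ℕ) × ℕ => s q.1.1 := hs.comp (Primrec.fst.comp Primrec.fst)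
  have hk : Primrec fun q : (α × ℕ) × ℕ => q.1.2 := Primrec.snd.comp Primrec.fst
  have hj : Primrec fun q : (α × ℕ) × ℕ => q.2 := Primrec.snd
  refine pp_exists_lt (R := fun q : (α × ℕ) × ℕ => wn (a q.1.1).unpair.1 (s q.1.1)
    (Nat.pair q.1.2 q.2) ∧ (bitE (a q.1.1) q.2 = side (c q.1.1) →
      ¬ (wn (a q.1.1).unpair.2 (s q.1.1) q.1.2 ↔ wn (c q.1.1).unpair.1 (s q.1.1) q.1.2)))
    (hs.comp Primrec.fst) ?_
  refine (primrec_wn (pr_unpair1 ha1) hs1 (pr_pair hk hj)).and (pp_imp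
    (pp_eq (primrec_bitE ha1 hj) (primrec_side hc1))
    (pp_iff (primrec_wn (pr_unpair2 ha1) hs1 hk) (primrec_wn (pr_unpair1 hc1) hs1 hk)).not)

theorem primrec_Cert {a c r s : α → ℕ} (ha : Primrec a) (hc : Primrec c) (hr : Primrec r)
    (hs : Primrec s) : PrimrecPred fun x => Cert (a x) (c x) (r x) (s x) := by
  unfold Cert
  refine pp_exists_lt (R := fun q : α × ℕ => r q.1 ≤ q.2 ∧ Agree (a q.1) (c q.1) (r q.1) q.2)
    (Primrec.succ.comp hs) ?_
  exact (pp_le (hr.comp Primrec.fst) Primrec.snd).and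
    (primrec_Agree (ha.comp Primrec.fst) (hc.comp Primrec.fst) (hr.comp Primrec.fst) Primrec.snd)

theorem primrec_OK {j s : α → ℕ} (hj : Primrec j) (hs : Primrec s) :
    PrimrecPred fun x => OK (j x) (s x) := by
  unfold OK
  refine pp_forall_lt (R := fun q : α × ℕ => ∀ c < (j q.1).unpair.2, Cert q.2 c (j q.1) (s q.1) →
    (∀ c' < c, ¬ Cert q.2 c' (j q.1) (s q.1)) → bitE q.2 (j q.1) = side c) (pr_unpair2 hj) ?_
  refine pp_forall_lt (R := fun q : (α × ℕ) × ℕ => Cert q.1.2 q.2 (j q.1.1) (s q.1.1) →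
    (∀ c' < q.2, ¬ Cert q.1.2 c' (j q.1.1) (s q.1.1)) → bitE q.1.2 (j q.1.1) = side q.2)
    (pr_unpair2 (hj.comp Primrec.fst)) ?_
  have hj1 : Primrec fun q : (α × ℕ) × ℕ => j q.1.1 := hj.comp (Primrec.fst.comp Primrec.fst)
  have hs1 : Primrec fun q : (α × ℕ) × ℕ => s q.1.1 := hs.comp (Primrec.fst.comp Primrec.fst)
  have ha1 : Primrec fun q : (α × ℕ) × ℕ => q.1.2 := Primrec.snd.comp Primrec.fst
  refine pp_imp (primrec_Cert ha1 Primrec.snd hj1 hs1) (pp_imp ?_
    (pp_eq (primrec_bitE ha1 hj1) (primrec_side Primrec.snd)))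
  refine pp_forall_lt (R := fun q : ((α × ℕ) × ℕ) × ℕ =>
    ¬ Cert q.1.1.2 q.2 (j q.1.1.1) (s q.1.1.1)) Primrec.snd ?_
  exact (primrec_Cert (ha1.comp Primrec.fst) Primrec.snd (hj1.comp Primrec.fst)
    (hs1.comp Primrec.fst)).not

theorem primrec_Act {m n : α → ℕ} (hm : Primrec m) (hn : Primrec n) :
    PrimrecPred fun x => Act (m x) (n x) := by
  unfold Act
  exact (primrec_wn hm (pr_unpair1 hn) (pr_pair (pr_unpair2 hn) hm)).and
    (primrec_OK (pr_pair (pr_unpair2 hn) hm) (pr_unpair1 hn))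

theorem primrec_First {m n : α → ℕ} (hm : Primrec m) (hn : Primrec n) :
    PrimrecPred fun x => First (m x) (n x) := by
  unfold First
  refine (primrec_Act hm hn).and ?_
  refine pp_forall_lt (R := fun q : α × ℕ => ¬ Act (m q.1) q.2) hn ?_
  exact (primrec_Act (hm.comp Primrec.fst) Primrec.snd).not

theorem primrec_Xs {s j : α → ℕ} (hs : Primrec s) (hj : Primrec j) :
    PrimrecPred fun x => Xs (s x) (j x) := by
  unfold Xs
  refine pp_exists_lt (R := fun q : α × ℕ => First (j q.1).unpair.2 q.2 ∧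
    q.2.unpair.2 = (j q.1).unpair.1) hs ?_
  exact (primrec_First (pr_unpair2 (hj.comp Primrec.fst)) Primrec.snd).and
    (pp_eq (pr_unpair2 Primrec.snd) (pr_unpair1 (hj.comp Primrec.fst)))

end PR2

theorem re_X : REPred X :=
  re_of_exists_primrec (R := fun q => Xs q.2 q.1) (primrec_Xs Primrec.snd Primrec.fst)
    fun _ => Iff.rfl

theorem Xs_mono {s s' j : ℕ} (h : s ≤ s') (hx : Xs s j) : Xs s' j := by
  obtain ⟨n, hn, h1⟩ := hx
  exact ⟨n, hn.trans_le h, h1⟩

theorem Cert_mono {a c r s s' : ℕ} (h : s ≤ s') (hx : Cert a c r s) : Cert a c r s' := by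
  obtain ⟨n, hn, h1⟩ := hx
  exact ⟨n, hn.trans_le (Nat.succ_le_succ h), h1⟩

theorem Cert_anti {a c r r' s : ℕ} (h : r' ≤ r) (hx : Cert a c r s) : Cert a c r' s := by
  obtain ⟨n, hn, h1, h2⟩ := hx
  exact ⟨n, hn, h.trans h1, fun k hk => h2 k (hk.trans_le h)⟩

theorem First_unique {m n n' : ℕ} (h : First m n) (h' : First m n') : n = n' := by
  rcases lt_trichotomy n n' with h1 | h1 | h1
  · exact absurd h.1 (h'.2 n h1)
  · exact h1
  · exact absurd h'.1 (h.2 n' h1)

theorem exists_First {m n : ℕ} (h : Act m n) : ∃ n, First m n := by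
  classical
  have hex : ∃ n, Act m n := ⟨n, h⟩
  exact ⟨Nat.find hex, Nat.find_spec hex, fun n' hn' => Nat.find_min hex hn'⟩

/-- arbitrarily large numbers with prescribed first bits -/
theorem exists_bits (m : ℕ) : ∀ (f : ℕ → ℕ) (_ : ∀ i, f i < 2) (J : ℕ),
    ∃ p, J ≤ p ∧ ∀ a < m, (p / 2 ^ a) % 2 = f a := by
  induction m with
  | zero => exact fun f _ J => ⟨J, le_rfl, fun a ha => absurd ha (Nat.not_lt_zero a)⟩
  | succ m ih =>
    intro f hf J
    obtain ⟨p, hp, h⟩ := ih (fun i => f (i + 1)) (fun i => hf (i + 1)) J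
    refine ⟨2 * p + f 0, by omega, fun a ha => ?_⟩
    rcases a with _ | a
    · have := hf 0
      simp only [pow_zero, Nat.div_one]
      omega
    · have h1 := h a (by omega)
      have h2 : (2 * p + f 0) / 2 ^ (a + 1) = p / 2 ^ a := by
        rw [pow_succ', ← Nat.div_div_eq_div_mul]
        congr 1
        have := hf 0
        omega
      rw [h2, h1]

/-- `X` is not co-c.e. -/
theorem not_re_compl_X : ¬ REPred fun j => ¬ X j := by
  classical
  intro hcon
  obtain ⟨m, hm⟩ := exists_code_of_re hcon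
  -- no action for `m`
  have hno : ∀ n, ¬ Act m n := by
    intro n hn
    obtain ⟨n', hn'⟩ := exists_First hn
    have hX : X (Nat.pair n'.unpair.2 m) := ⟨n' + 1, n', Nat.lt_succ_self _, by simpa using hn', by simp⟩
    exact (hm _).2 ⟨_, hn'.1.1⟩ hX
  -- the bound
  have hbd : ∃ J, ∀ a < m, ∀ c < m, (¬ ∀ r, ∃ s, Cert a c r s) → ∀ s, ¬ Cert a c J s := by
    have h1 : ∀ a c : ℕ, ∃ J, (¬ ∀ r, ∃ s, Cert a c r s) → ∀ s, ¬ Cert a c J s := by
      intro a c
      by_cases h : ∀ r, ∃ s, Cert a c r s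
      · exact ⟨0, fun h' => absurd h h'⟩
      · push Not at h
        obtain ⟨r, hr⟩ := h
        exact ⟨r, fun _ => hr⟩
    choose F hF using h1
    refine ⟨∑ a ∈ Finset.range m, ∑ c ∈ Finset.range m, F a c, fun a ha c hc h s hs => ?_⟩
    refine hF a c h s (Cert_anti ?_ hs)
    calc F a c ≤ ∑ c ∈ Finset.range m, F a c :=
          Finset.single_le_sum (f := fun c => F a c) (fun _ _ => Nat.zero_le _) (Finset.mem_range.2 hc)
      _ ≤ _ := Finset.single_le_sum (f := fun a => ∑ c ∈ Finset.range m, F a c)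
          (fun _ _ => Nat.zero_le _) (Finset.mem_range.2 ha)
  obtain ⟨J, hJ⟩ := hbd
  -- the least infinitary requirement
  let good : ℕ → ℕ → Prop := fun a c => c < m ∧ ∀ r, ∃ s, Cert a c r s
  let f : ℕ → ℕ := fun a => if h : ∃ c, good a c then side (Nat.find h) else 0
  have hf : ∀ a, f a < 2 := by
    intro a
    simp only [f]
    split_ifs
    · exact Nat.mod_lt _ (by norm_num)
    · norm_num
  obtain ⟨p, hp, hbits⟩ := exists_bits m f hf J
  have hpJ : J ≤ Nat.pair p m := hp.trans (Nat.left_le_pair p m)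
  have hnX : ¬ X (Nat.pair p m) := by
    rintro ⟨s, n, _, hn, _⟩
    simp only [Nat.unpair_pair] at hn
    exact hno n hn.1
  obtain ⟨s₀, hs₀⟩ := (hm _).1 hnX
  have hs1 : ∃ s₁, ∀ a < m, ∀ h : (∃ c, good a c), Cert a (Nat.find h) (Nat.pair p m) s₁ := by
    have h1 : ∀ a : ℕ, ∃ s₁, ∀ h : (∃ c, good a c), Cert a (Nat.find h) (Nat.pair p m) s₁ := by
      intro a
      by_cases h : ∃ c, good a c
      · obtain ⟨s, hs⟩ := (Nat.find_spec h).2 (Nat.pair p m)
        exact ⟨s, fun _ => hs⟩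
      · exact ⟨0, fun h' => absurd h' h⟩
    choose S hS using h1
    refine ⟨∑ a ∈ Finset.range m, S a, fun a ha h => Cert_mono ?_ (hS a h)⟩
    exact Finset.single_le_sum (f := S) (fun _ _ => Nat.zero_le _) (Finset.mem_range.2 ha)
  obtain ⟨s₁, hs₁⟩ := hs1
  refine hno (Nat.pair (max s₀ s₁) p) ⟨?_, ?_⟩
  · simpa using wn_mono (le_max_left _ _) hs₀
  · simp only [Nat.unpair_pair]
    intro a ha c hc hcert hmin
    simp only [Nat.unpair_pair] at ha hc
    have hall : ∀ r, ∃ s, Cert a c r s := by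
      by_contra hnot
      exact hJ a ha c hc hnot _ (Cert_anti hpJ hcert)
    have hex : ∃ c, good a c := ⟨c, hc, hall⟩
    have hle : Nat.find hex ≤ c := Nat.find_min' hex ⟨hc, hall⟩
    have hcc : Nat.find hex = c := by
      by_contra hne
      exact hmin _ (lt_of_le_of_ne hle hne) (Cert_mono (le_max_right _ _) (hs₁ a ha hex))
    have h3 : f a = side c := by
      simp only [f]
      rw [dif_pos hex, hcc]
    unfold bitE
    simp only [Nat.unpair_pair]
    rw [hbits a ha, h3]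

end Pool.Agent.Helper65.Rogers
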